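import Pool.Agent.MP_d68894_co.H53.Pen

set_option autoImplicit false
open Matrix

namespace Pool.Agent.MP_d68894_co.H53

theorem kern (ψ : JB → (Fin 40 → ℝ) →ₗ[ℝ] ℝ) (Zb : Finset JB) (D : Finset (Fin 40))
    (h : Zb.card < D.card) :
    ∃ γ : Fin 40 → ℝ, γ ≠ 0 ∧ (∀ i, i ∉ D → γ i = 0) ∧ ∀ j ∈ Zb, ψ j γ = 0 := by
  let T : (Fin 40 → ℝ) →ₗ[ℝ] (Zb → ℝ) × ((Dᶜ : Finset (Fin 40)) → ℝ) :=
    LinearMap.prod (LinearMap.pi fun j => ψ j) (LinearMap.pi fun i => LinearMap.proj i.1)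
  have hk : LinearMap.ker T ≠ ⊥ := by
    apply LinearMap.ker_ne_bot_of_finrank_lt
    have := Finset.card_le_univ D
    simp only [Module.finrank_prod, Module.finrank_fintype_fun_eq_card, Fintype.card_coe,
      Finset.card_compl, Fintype.card_fin] at this ⊢
    omega
  obtain ⟨γ, h1, h2⟩ := (Submodule.ne_bot_iff _).1 hk
  have h3 : T γ = 0 := h1
  exact ⟨γ, h2, fun i hi => congrFun (congrArg Prod.snd h3) ⟨i, Finset.mem_compl.2 hi⟩,
    fun j hj => congrFun (congrArg Prod.fst h3) ⟨j, hj⟩⟩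

noncomputable def lift (γ : Fin 40 → ℝ) : Pt
  | none => 0
  | some k => sg k.2 * γ k.1 / 2

theorem lift_mass (γ : Fin 40 → ℝ) (i : Fin 40) : mass (lift γ) i = 0 := by
  simp [mass, lift, sg]; ring
theorem lift_eta (γ : Fin 40 → ℝ) : eta (lift γ) = γ := by
  funext i; simp [eta, lift, sg]; ring
theorem lift_tot (γ : Fin 40 → ℝ) : tot (lift γ) = 0 := by
  simp [tot, lift_mass, lift]
theorem lift_ms (γ : Fin 40 → ℝ) (β : ℕ) : ms (lift γ) β = 0 := by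
  cases β <;> simp [ms, lift_mass, lift]

open Classical in
noncomputable def DD (p p' : Pt) : Finset (Fin 40) :=
  Finset.univ.filter fun i => ∀ a, p' (some (i, a)) ≠ p (some (i, a))

variable {P : Par} {p p' : Pt} {f f' : JJ → ℝ}

theorem use_kern (hm : Mn P p f p' f') (Zb : Finset JB)
    (hZ : ∀ j, f' (Sum.inr j) = f (Sum.inr j) → j ∈ Zb) (D : Finset (Fin 40)) (hD : D ⊆ DD p p')
    (h : Zb.card < D.card) :
    DD p p' ⊆ D ∧ ∀ k, f' (Sum.inl k) = f (Sum.inl k) := by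
  obtain ⟨γ, h1, h2, h3⟩ := kern P.Ψ Zb D h
  have hL : ∀ k, P.Lf (Sum.inl k) (lift γ) = 0 := fun k => by
    simp [Par.Lf, Par.lin, lift_tot, lift_ms]
  obtain ⟨a, b⟩ := hm (lift γ) (fun e => h1 (by rw [← lift_eta γ, e]; funext i; simp [eta])) rfl
    (by
      intro k hk
      have : k.1 ∉ D := fun hc => by
        have := hD hc
        simp only [DD, Finset.mem_filter] at this
        exact this.2 k.2 hk
      simp [lift, h2 _ this])
    (by
      rintro (k | j) hj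
      · exact hL k
      · simp [Par.Lf, Par.lin, lift_tot, lift_eta, h3 j (hZ j hj)])
  refine ⟨fun i hi => ?_, fun k => b _ (hL k)⟩
  by_contra hc
  simp only [DD, Finset.mem_filter] at hi
  exact hi.2 true (a (some (i, true)) (by simp [lift, h2 _ hc]))

theorem card_DD (hm : Mn P p f p' f') (Zb : Finset JB)
    (hZ : ∀ j, f' (Sum.inr j) = f (Sum.inr j) → j ∈ Zb) : (DD p p').card ≤ Zb.card + 1 := by
  by_contra hc
  obtain ⟨i, hi⟩ : (DD p p').Nonempty := Finset.card_pos.1 (by omega)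
  have := (use_kern hm Zb hZ ((DD p p').erase i) (Finset.erase_subset _ _)
    (by rw [Finset.card_erase_of_mem hi]; omega)).1 hi
  simp at this

theorem mass_near (h : OK P p f) (hH : P.hh p ≤ 43 * P.N 40 + 1) (i : Fin 40) :
    |mass p i - 1| ≤ 41 * P.θ := by
  have θ0 := P.geo.hθ
  rw [← ms_succ]
  by_cases hi : (i : ℕ) + 1 < 40
  · exact (h.ms_near 40 le_rfl hH _ hi).trans (by linarith)
  · have := h.Fr_near 40 le_rfl hH
    rw [show (i : ℕ) + 1 = 40 by omega]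
    rw [Fr_succ p 40 le_rfl] at this
    simp only [Fr, Finset.Ico_self, Finset.sum_empty, add_zero] at this
    norm_num at this ⊢
    exact this

theorem eta_off (h : OK P p f) (h' : OK P p' f') (hH : P.hh p ≤ 43 * P.N 40 + 1)
    (hH' : P.hh p' ≤ 43 * P.N 40 + 1) (i : Fin 40) (hi : i ∉ DD p p') :
    |eta p' i - eta p i| ≤ 82 * P.θ := by
  simp only [DD, Finset.mem_filter, Finset.mem_univ, true_and, not_forall, not_not] at hi
  obtain ⟨a, ha⟩ := hi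
  have m1 := abs_le.1 (mass_near h hH i)
  have m2 := abs_le.1 (mass_near h' hH' i)
  unfold mass at m1 m2
  unfold eta
  cases a <;> exact abs_le.2 ⟨by linarith, by linarith⟩

theorem W_drop (h : OK P p f) (h' : OK P p' f') (hH : P.hh p ≤ 43 * P.N 40 + 1)
    (hH' : P.hh p' ≤ 43 * P.N 40 + 1) (hm : Mn P p f p' f') (Zb : Finset JB)
    (hZ : ∀ j, f' (Sum.inr j) = f (Sum.inr j) → j ∈ Zb) (n : ℕ) (hn : Zb.card ≤ n) (c : CC) :
    sv c ⬝ᵥ eta p - 2 * (n + 1) - 1 / 5 ≤ sv c ⬝ᵥ eta p' := by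
  classical
  have h1 : ((DD p p').card : ℝ) ≤ n + 1 := by
    exact_mod_cast (card_DD hm Zb hZ).trans (by omega)
  have h2 : ∀ i ∈ Finset.univ, sv c i * (eta p - eta p') i ≤
      82 * P.θ + if i ∈ DD p p' then 2 else 0 := by
    intro i _
    refine (le_abs_self _).trans ?_
    rw [abs_mul, sv, sg_abs, one_mul, Pi.sub_apply]
    split_ifs with hi
    · have m1 := abs_le.1 (mass_near h hH i)
      have m2 := abs_le.1 (mass_near h' hH' i)
      have := abs_sub (eta p i) (eta p' i)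
      linarith [h.eta_le i, h'.eta_le i]
    · rw [abs_sub_comm, add_zero]; exact eta_off h h' hH hH' i hi
  have h3 := Finset.sum_le_sum h2
  rw [Finset.sum_add_distrib, Finset.sum_ite_mem, Finset.univ_inter] at h3
  simp only [Finset.sum_const, Finset.card_univ, Fintype.card_fin, nsmul_eq_mul] at h3
  have h4 : sv c ⬝ᵥ (eta p - eta p') = ∑ i, sv c i * (eta p - eta p') i := rfl
  rw [← h4, dotProduct_sub] at h3
  have := P.geo.hθ'
  push_cast at h3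
  linarith

noncomputable def Par.U (P : Par) (c : CC) (j : JB) (p : Pt) : ℝ :=
  P.Φ (c, 0) (eta p) - P.Φ j (eta p)

def OutG (P : Par) (c : CC) (κ κ' : Fin 3) (p : Pt) : Prop :=
  ∃ a b : ℝ, 5 ≤ a ∧ a ≤ P.Q ∧ 5 ≤ b ∧ b ≤ P.Q ∧ a * P.U c (c, κ) p + b * P.U c (c, κ') p ≤ 44

def OutZ (P : Par) (c : CC) (κ κ' : Fin 3) (p p' : Pt) : Prop :=
  ∃ a b : ℝ, 5 ≤ a ∧ a ≤ P.Q ∧ 5 ≤ b ∧ b ≤ P.Q ∧
    -88 ≤ a * (P.U c (c, κ) p' - P.U c (c, κ) p) + b * (P.U c (c, κ') p' - P.U c (c, κ') p)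

theorem OutG.swap {c : CC} {κ κ' : Fin 3} (h : OutG P c κ κ' p) : OutG P c κ' κ p := by
  obtain ⟨a, b, h1, h2, h3, h4, h5⟩ := h
  exact ⟨b, a, h3, h4, h1, h2, by linarith⟩

theorem OutZ.swap {c : CC} {κ κ' : Fin 3} (h : OutZ P c κ κ' p p') : OutZ P c κ' κ p p' := by
  obtain ⟨a, b, h1, h2, h3, h4, h5⟩ := h
  exact ⟨b, a, h3, h4, h1, h2, by linarith⟩

theorem OK.d0 (h : OK P p f) (c : CC) :
    |f (Sum.inr (c, 0)) - (P.hh p - P.Φ (c, 0) (eta p))| ≤ 1 := by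
  simpa [Par.ell, Par.lin, Par.cst, Par.Ψ] using h.ap (Sum.inr (c, 0))

theorem OK.dk (h : OK P p f) (c : CC) (k : Fin 3) (hk : k ≠ 0) :
    |f (Sum.inr (c, k)) - f (Sum.inr (c, 0)) - (P.U c (c, k) p - sv c ⬝ᵥ eta p)| ≤ 2 := by
  have h1 := abs_le.1 (h.d0 c)
  have h2 := abs_le.1 (h.ap (Sum.inr (c, k)))
  simp only [Par.ell, Par.lin, Par.cst, Par.Ψ, hk, if_false, LinearMap.add_apply, dotL,
    LinearMap.coe_mk, AddHom.coe_mk] at h2
  unfold Par.U
  exact abs_le.2 ⟨by linarith, by linarith⟩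

theorem OK.dj (h : OK P p f) (c : CC) (j : JB) :
    |f (Sum.inr j) - f (Sum.inr (c, 0)) - P.U c j p| ≤ 44 := by
  have h1 := abs_le.1 (h.d0 c)
  have h2 := abs_le.1 (h.ap (Sum.inr j))
  have h3 := abs_le.1 (h.W_le j.1)
  unfold Par.U
  by_cases hk : j.2 = 0 <;>
  simp only [Par.ell, Par.lin, Par.cst, Par.Ψ, hk, if_false, if_true, LinearMap.add_apply, dotL,
    LinearMap.coe_mk, AddHom.coe_mk, LinearMap.zero_apply] at h2 <;>
  exact abs_le.2 ⟨by linarith, by linarith⟩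

theorem OK.U_le (h : OK P p f) (c : CC) (j : JB) (hj : f (Sum.inr j) = 0) : P.U c j p ≤ 44 := by
  have := abs_le.1 (h.dj c j)
  have := h.fe (Sum.inr (c, 0))
  linarith

theorem OK.outG1 (h : OK P p f) (c : CC) (hh : P.hh p ≤ 1) : OutG P c 1 2 p := by
  obtain ⟨a, b, h1, h2, h3, h4, h5⟩ := P.geo.g0 c
  refine ⟨a, b, h1, h2, h3, h4, ?_⟩
  have := abs_le.1 (h.d0 c)
  have := h.fe (Sum.inr (c, 0))
  unfold Par.U
  rw [← h5]
  linarith

theorem OK.outG2 (h : OK P p f) (c : CC) (j : JB) (hc : j.1 ≠ c) (hj : f (Sum.inr j) = 0) :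
    OutG P c 1 2 p := by
  obtain ⟨a, b, h1, h2, h3, h4, h5⟩ := P.geo.g1 c j hc
  refine ⟨a, b, h1, h2, h3, h4, ?_⟩
  have := h.U_le c j hj
  unfold Par.U at this ⊢
  rw [← h5]
  exact this

theorem OK.dZ (h : OK P p f) (h' : OK P p' f') (c : CC) (j : JB)
    (e : f' (Sum.inr (c, 0)) = f (Sum.inr (c, 0))) (hj : f' (Sum.inr j) = f (Sum.inr j)) :
    |P.U c j p' - P.U c j p| ≤ 88 := by
  have := abs_le.1 (h.dj c j)
  have := abs_le.1 (h'.dj c j)
  exact abs_le.2 ⟨by linarith, by linarith⟩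

theorem OK.outZ2 (h : OK P p f) (h' : OK P p' f') (c : CC) (j : JB) (hc : j.1 ≠ c)
    (e : f' (Sum.inr (c, 0)) = f (Sum.inr (c, 0))) (hj : f' (Sum.inr j) = f (Sum.inr j)) :
    OutZ P c 1 2 p p' := by
  obtain ⟨a, b, h1, h2, h3, h4, h5⟩ := P.geo.g1 c j hc
  refine ⟨a, b, h1, h2, h3, h4, ?_⟩
  have := abs_le.1 (h.dZ h' c j e hj)
  unfold Par.U at this ⊢
  rw [h5, h5 (eta p)] at this
  linarith

theorem OK.outZ1 (h : OK P p f) (h' : OK P p' f') (c : CC)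
    (e : f' (Sum.inr (c, 0)) = f (Sum.inr (c, 0))) (hj : ∀ k, f' (Sum.inl k) = f (Sum.inl k)) :
    OutZ P c 1 2 p p' := by
  obtain ⟨a, b, h1, h2, h3, h4, h5⟩ := P.geo.g0 c
  refine ⟨a, b, h1, h2, h3, h4, ?_⟩
  have a1 := abs_le.1 (h.same2 h' fun e => hj _)
  have a2 := abs_le.1 (h.d0 c)
  have a3 := abs_le.1 (h'.d0 c)
  have a4 := h5 (eta p)
  have a5 := h5 (eta p')
  unfold Par.U
  linarith

end Pool.Agent.MP_d68894_co.H53
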