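import Mathlib

set_option autoImplicit false
open Matrix Filter Topology

namespace Pool.Agent.MP_d68894_co.H53

/-- finitely many proper subspaces do not cover a nonempty open set -/
theorem avoid {n : Type} [Fintype n] (S : Set (Submodule ℝ (n → ℝ))) (hS : S.Finite)
    (hne : ∀ p ∈ S, p ≠ ⊤) (O : Set (n → ℝ)) (hO : IsOpen O) (hO' : O.Nonempty) :
    ∃ x ∈ O, ∀ p ∈ S, x ∉ p := by
  by_contra h
  push Not at h
  have hsub : O ⊆ ⋃ p ∈ S, (p : Set (n → ℝ)) := by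
    intro x hx
    obtain ⟨p, hp, hxp⟩ := h x hx
    exact Set.mem_biUnion hp hxp
  have h0 : MeasureTheory.volume (⋃ p ∈ S, (p : Set (n → ℝ))) = 0 :=
    (MeasureTheory.measure_biUnion_null_iff hS.countable).2 fun p hp =>
      MeasureTheory.Measure.addHaar_submodule _ p (hne p hp)
  have := hO.measure_pos MeasureTheory.volume hO'
  exact absurd (MeasureTheory.measure_mono_null hsub h0) this.ne'

variable {d : ℕ}

/-- rows: minus the unit vectors, then the rows of `B` -/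
def rowA (B : Matrix (Fin d) (Fin d) ℝ) : Fin d ⊕ Fin d → Fin d → ℝ
  | Sum.inl i => -Pi.single i 1
  | Sum.inr j => B j

/-- right-hand sides: zero, then `c` -/
def rhs (c : Fin d → ℝ) : Fin d ⊕ Fin d → ℝ
  | Sum.inl _ => 0
  | Sum.inr j => c j

theorem rowA_inl (B : Matrix (Fin d) (Fin d) ℝ) (i : Fin d) (x : Fin d → ℝ) :
    rowA B (Sum.inl i) ⬝ᵥ x = - x i := by
  simp [rowA]

def IsCirc (A : Fin d ⊕ Fin d → Fin d → ℝ) (g : Fin d → ℝ) : Prop :=
  g ≠ 0 ∧ ∀ h : Fin d → ℝ, h ≠ 0 → (∀ i, A i ⬝ᵥ g = 0 → A i ⬝ᵥ h = 0) →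
    (∀ i, A i ⬝ᵥ h = 0 → A i ⬝ᵥ g = 0)

open Classical in
noncomputable def rep (A : Fin d ⊕ Fin d → Fin d → ℝ) (Z : Set (Fin d ⊕ Fin d)) : Fin d → ℝ :=
  if h : ∃ g, IsCirc A g ∧ {i | A i ⬝ᵥ g = 0} = Z then h.choose else 0

theorem circ_prop (B : Matrix (Fin d) (Fin d) ℝ) (g : Fin d → ℝ) (hg : IsCirc (rowA B) g) :
    ∃ τ : ℝ, g = τ • rep (rowA B) {i | rowA B i ⬝ᵥ g = 0} := by
  have hex : ∃ g', IsCirc (rowA B) g' ∧ {i | rowA B i ⬝ᵥ g' = 0} = {i | rowA B i ⬝ᵥ g = 0} :=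
    ⟨g, hg, rfl⟩
  have hrep : rep (rowA B) {i | rowA B i ⬝ᵥ g = 0} = hex.choose := by
    unfold rep; rw [dif_pos hex]
  rw [hrep]
  obtain ⟨h1, h2⟩ := hex.choose_spec
  set g0 := hex.choose
  obtain ⟨i0, hi0⟩ : ∃ i, g0 i ≠ 0 := Function.ne_iff.1 h1.1
  have hr : rowA B (Sum.inl i0) ⬝ᵥ g0 ≠ 0 := by rw [rowA_inl]; simpa using hi0
  refine ⟨g i0 / g0 i0, ?_⟩
  by_contra hne
  have hne' : g - (g i0 / g0 i0) • g0 ≠ 0 := sub_ne_zero.2 hne
  apply hr
  apply h1.2 _ hne'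
  · intro i hi
    have : i ∈ {i | rowA B i ⬝ᵥ g = 0} := by rw [← h2]; exact hi
    simp only [Set.mem_ofPred_eq] at this
    simp [dotProduct_sub, dotProduct_smul, hi, this]
  · rw [rowA_inl]; simp; field_simp; simp

def dotL (a : Fin d → ℝ) : (Fin d → ℝ) →ₗ[ℝ] ℝ where
  toFun x := a ⬝ᵥ x
  map_add' := dotProduct_add a
  map_smul' := by intro m x; simp

def rhsL : Fin d ⊕ Fin d → (Fin d → ℝ) →ₗ[ℝ] ℝ
  | Sum.inl _ => 0
  | Sum.inr j => LinearMap.proj j

theorem rhsL_apply (r : Fin d ⊕ Fin d) (c : Fin d → ℝ) : rhsL r c = rhs c r := by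
  cases r <;> simp [rhsL, rhs]

noncomputable def stepY (B : Matrix (Fin d) (Fin d) ℝ) (Y : (Fin d → ℝ) →ₗ[ℝ] (Fin d → ℝ))
    (s : (Fin d ⊕ Fin d) × Set (Fin d ⊕ Fin d)) : (Fin d → ℝ) →ₗ[ℝ] (Fin d → ℝ) :=
  Y + LinearMap.smulRight ((rowA B s.1 ⬝ᵥ rep (rowA B) s.2)⁻¹ •
    (rhsL s.1 - dotL (rowA B s.1) ∘ₗ Y)) (rep (rowA B) s.2)

theorem stepY_apply (B : Matrix (Fin d) (Fin d) ℝ) (Y : (Fin d → ℝ) →ₗ[ℝ] (Fin d → ℝ))
    (s : (Fin d ⊕ Fin d) × Set (Fin d ⊕ Fin d)) (c : Fin d → ℝ) :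
    stepY B Y s c = Y c + ((rowA B s.1 ⬝ᵥ rep (rowA B) s.2)⁻¹ *
      (rhs c s.1 - rowA B s.1 ⬝ᵥ Y c)) • rep (rowA B) s.2 := by
  simp [stepY, rhsL_apply, dotL]

noncomputable def Ymap (B : Matrix (Fin d) (Fin d) ℝ)
    (σ : ℕ → (Fin d ⊕ Fin d) × Set (Fin d ⊕ Fin d)) : ℕ → (Fin d → ℝ) →ₗ[ℝ] (Fin d → ℝ)
  | 0 => 0
  | t + 1 => stepY B (Ymap B σ t) (σ t)

theorem Ymap_finite (B : Matrix (Fin d) (Fin d) ℝ) (t : ℕ) :
    (Set.range fun σ => Ymap B σ t).Finite := by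
  induction t with
  | zero => exact (Set.finite_singleton 0).subset (by rintro _ ⟨σ, rfl⟩; rfl)
  | succ t ih =>
    refine (Set.Finite.image2 (stepY B) ih Set.finite_univ).subset ?_
    rintro _ ⟨σ, rfl⟩
    exact ⟨_, ⟨σ, rfl⟩, σ t, trivial, rfl⟩

theorem Ymap_single (B : Matrix (Fin d) (Fin d) ℝ)
    (σ : ℕ → (Fin d ⊕ Fin d) × Set (Fin d ⊕ Fin d)) (j : Fin d) (t : ℕ)
    (h : ∀ s < t, (σ s).1 ≠ Sum.inr j) : Ymap B σ t (Pi.single j 1) = 0 := by
  induction t with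
  | zero => rfl
  | succ t ih =>
    have h1 := ih fun s hs => h s (by omega)
    have h2 : rhs (Pi.single j (1:ℝ)) (σ t).1 = 0 := by
      have := h t (by omega)
      rcases hr : (σ t).1 with i | i
      · rfl
      · rw [hr] at this
        have : i ≠ j := fun e => this (by rw [e])
        simp [rhs, this]
    simp [Ymap, stepY_apply, h1, h2]

theorem block (A : Fin d ⊕ Fin d → Fin d → ℝ) (b : Fin d ⊕ Fin d → ℝ) (y g : Fin d → ℝ) (α : ℝ)
    (hf : ∀ i, A i ⬝ᵥ (y + α • g) ≤ b i) (hm : ∀ β, α < β → ∃ i, b i < A i ⬝ᵥ (y + β • g)) :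
    ∃ r, A r ⬝ᵥ (y + α • g) = b r ∧ 0 < A r ⬝ᵥ g := by
  by_contra hc
  push Not at hc
  have : ∀ᶠ β in 𝓝[>] α, ∀ i, A i ⬝ᵥ (y + β • g) ≤ b i := by
    rw [eventually_all]
    intro i
    rcases (hf i).eq_or_lt with h | h
    · filter_upwards [self_mem_nhdsWithin] with β hβ
      have h1 := hc i h
      have h2 : α < β := hβ
      simp only [dotProduct_add, dotProduct_smul, smul_eq_mul] at h ⊢
      nlinarith
    · apply Filter.Eventually.filter_mono nhdsWithin_le_nhds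
      have hcont : Continuous fun β : ℝ => A i ⬝ᵥ (y + β • g) := by fun_prop
      exact (hcont.continuousAt.eventually_lt continuousAt_const h).mono fun β hβ => hβ.le
  obtain ⟨β, h1, h2⟩ := (this.and self_mem_nhdsWithin).exists
  obtain ⟨i, hi⟩ := hm β h2
  exact absurd (h1 i) (not_le.2 hi)

/-- for a generic right-hand side every short walk gains a new facet of the target at every step
and keeps it -/
theorem generic (hd : 0 < d) (B : Matrix (Fin d) (Fin d) ℝ) (O : Set (Fin d → ℝ)) (hO : IsOpen O)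
    (hO' : O.Nonempty) :
    ∃ c ∈ O, ∀ k ≤ d, ∀ (y g : ℕ → Fin d → ℝ) (α : ℕ → ℝ), y 0 = 0 → B *ᵥ y k = c →
      (∀ t ≤ k, ∀ i, rowA B i ⬝ᵥ y t ≤ rhs c i) →
      (∀ t < k, IsCirc (rowA B) (g t) ∧ y (t + 1) = y t + α t • g t ∧
        ∀ β, α t < β → ∃ i, rhs c i < rowA B i ⬝ᵥ (y t + β • g t)) →
      k = d ∧ ∃ ρ : ℕ → Fin d ⊕ Fin d, (∀ s < k, ∃ j, ρ s = Sum.inr j) ∧
        (∀ s < k, ∀ t < k, ρ s = ρ t → s = t) ∧
        ∀ s t, s < t → t ≤ k → rowA B (ρ s) ⬝ᵥ y t = rhs c (ρ s) := by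
  classical
  let T : Set ((Fin d → ℝ) →ₗ[ℝ] (Fin d → ℝ)) :=
    {Y | (∃ t ∈ Set.Iic d, ∃ σ, Ymap B σ t = Y) ∧ B.mulVecLin ∘ₗ Y ≠ LinearMap.id}
  have hT : T.Finite := by
    refine ((Set.finite_Iic d).biUnion fun t _ => Ymap_finite B t).subset ?_
    rintro Y ⟨⟨t, ht, σ, rfl⟩, -⟩
    exact Set.mem_biUnion ht ⟨σ, rfl⟩
  obtain ⟨c, hcO, hc⟩ := avoid
    ((fun Y => LinearMap.ker (B.mulVecLin ∘ₗ Y - LinearMap.id)) '' T) (hT.image _)
    (by
      rintro _ ⟨Y, hY, rfl⟩ h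
      exact hY.2 (sub_eq_zero.1 (LinearMap.ker_eq_top.1 h))) O hO hO'
  refine ⟨c, hcO, fun k hk y g α h0 hl hf hs => ?_⟩
  have hb : ∀ t, ∃ r, t < k → rowA B r ⬝ᵥ y (t + 1) = rhs c r ∧ 0 < rowA B r ⬝ᵥ g t := by
    intro t
    by_cases ht : t < k
    · obtain ⟨-, h2, h3⟩ := hs t ht
      obtain ⟨r, hr⟩ := block (rowA B) (rhs c) (y t) (g t) (α t)
        (by rw [← h2]; exact hf _ ht) h3
      exact ⟨r, fun _ => by rw [h2]; exact hr⟩
    · exact ⟨Sum.inl ⟨0, hd⟩, fun h => absurd h ht⟩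
  choose r hr using hb
  let σ : ℕ → (Fin d ⊕ Fin d) × Set (Fin d ⊕ Fin d) :=
    fun t => (r t, {i | rowA B i ⬝ᵥ g t = 0})
  have hpos : ∀ t < k, ∃ τ : ℝ, g t = τ • rep (rowA B) (σ t).2 ∧
      rowA B (r t) ⬝ᵥ rep (rowA B) (σ t).2 ≠ 0 := by
    intro t ht
    obtain ⟨τ, hτ⟩ := circ_prop B (g t) (hs t ht).1
    refine ⟨τ, hτ, fun h => ?_⟩
    have h1 := (hr t ht).2
    have h2 : rowA B (r t) ⬝ᵥ g t = τ * (rowA B (r t) ⬝ᵥ rep (rowA B) (σ t).2) := by
      conv_lhs => rw [hτ]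
      simp [σ]
    rw [h2, h] at h1
    simp at h1
  have hY : ∀ t ≤ k, y t = Ymap B σ t c := by
    intro t
    induction t with
    | zero => intro _; rw [h0]; rfl
    | succ t ih =>
      intro ht
      obtain ⟨τ, h1, h2⟩ := hpos t ht
      have h3 := (hs t ht).2.1
      have h4 := (hr t ht).1
      simp only [Ymap, stepY_apply]
      rw [← ih (by omega)]
      rw [h1, smul_smul] at h3
      rw [h3, dotProduct_add, dotProduct_smul, smul_eq_mul] at h4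
      rw [h3]
      congr 2
      change _ = (rowA B (r t) ⬝ᵥ rep (rowA B) (σ t).2)⁻¹ * (rhs c (r t) - _)
      rw [← h4]
      field_simp
      simp [σ]
  have hid : B.mulVecLin ∘ₗ Ymap B σ k = LinearMap.id := by
    by_contra hne
    apply hc _ ⟨Ymap B σ k, ⟨⟨k, hk, σ, rfl⟩, hne⟩, rfl⟩
    simp [← hY k le_rfl, hl]
  have hid' : ∀ c', B *ᵥ Ymap B σ k c' = c' := fun c' => LinearMap.congr_fun hid c'
  have hall : ∀ j : Fin d, ∃ s : Fin k, r s = Sum.inr j := by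
    intro j
    by_contra hn
    push Not at hn
    have h1 := Ymap_single B σ j k fun s hs => hn ⟨s, hs⟩
    have h2 := congrFun (hid' (Pi.single j 1)) j
    rw [h1] at h2
    simp at h2
  choose sj hsj using hall
  have hinj : Function.Injective sj := by
    intro j j' h
    have := hsj j
    rw [h, hsj j'] at this
    exact (Sum.inr_injective this).symm
  have hkd : k = d := le_antisymm hk (by simpa using Fintype.card_le_of_injective sj hinj)
  have hsur : Function.Surjective sj :=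
    ((Fintype.bijective_iff_injective_and_card sj).2 ⟨hinj, by simp [hkd]⟩).2
  have hR : ∀ s < k, ∃ j, r s = Sum.inr j := by
    intro s hs
    obtain ⟨j, hj⟩ := hsur ⟨s, hs⟩
    exact ⟨j, by have := hsj j; rwa [hj] at this⟩
  have hI : ∀ s < k, ∀ t < k, r s = r t → s = t := by
    intro s hs t ht h
    obtain ⟨j, hj⟩ := hsur ⟨s, hs⟩
    obtain ⟨j', hj'⟩ := hsur ⟨t, ht⟩
    have h1 := hsj j
    have h2 := hsj j'
    rw [hj] at h1
    rw [hj'] at h2
    have : j = j' := Sum.inr_injective (by rw [← h1, ← h2]; exact h)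
    rw [this, hj'] at hj
    exact (congrArg Fin.val hj).symm
  refine ⟨hkd, r, hR, hI, ?_⟩
  have hQ : ∀ m t, t + m = k → ∀ c', ∀ s < t,
      rowA B (r s) ⬝ᵥ Ymap B σ t c' = rhs c' (r s) := by
    intro m
    induction m with
    | zero =>
      intro t ht c' s hs
      obtain ⟨j, hj⟩ := hR s (by omega)
      rw [hj, show t = k by omega]
      exact congrFun (hid' c') j
    | succ m ih =>
      intro t ht c' s hs
      have ih' := ih (t + 1) (by omega)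
      obtain ⟨j, hj⟩ := hR t (by omega)
      obtain ⟨j', hj'⟩ := hR s (by omega)
      have hjj : j' ≠ j := by
        intro e
        have := hI s (by omega) t (by omega) (by rw [hj, hj', e])
        omega
      obtain ⟨-, -, h2⟩ := hpos t (by omega)
      have h1 := ih' (Pi.single j 1) s (by omega)
      have h3 : Ymap B σ t (Pi.single j 1) = 0 := Ymap_single B σ j t fun s' hs' h => by
        have := hI s' (by omega) t (by omega) (by rw [hj]; exact h)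
        omega
      have h4 : rowA B (r s) ⬝ᵥ rep (rowA B) (σ t).2 = 0 := by
        simp only [Ymap, stepY_apply, h3, zero_add, dotProduct_zero, sub_zero, dotProduct_smul,
          smul_eq_mul] at h1
        have e1 : rhs (Pi.single j (1:ℝ)) (σ t).1 = 1 := by
          change rhs _ (r t) = 1
          rw [hj]; simp [rhs]
        have e2 : rhs (Pi.single j (1:ℝ)) (r s) = 0 := by
          rw [hj']; simp [rhs, hjj]
        rw [e1, e2] at h1
        have h5 : (rowA B (σ t).1 ⬝ᵥ rep (rowA B) (σ t).2)⁻¹ ≠ 0 := inv_ne_zero h2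
        simpa [h5] using h1
      have h6 := ih' c' s (by omega)
      simp only [Ymap, stepY_apply, dotProduct_add, dotProduct_smul, h4, smul_zero,
        add_zero] at h6
      exact h6
  intro s t hst htk
  rw [hY t htk]
  exact hQ (k - t) t (by omega) c s hst

end Pool.Agent.MP_d68894_co.H53
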