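import Pool.Agent.MP_d68894_co.H53.Gen

set_option autoImplicit false
open Matrix Filter Topology

namespace Pool.Agent.MP_d68894_co.H53

abbrev CC := Fin 40 → Bool
abbrev JB := CC × Fin 3

def sg (a : Bool) : ℝ := if a then 1 else -1

theorem sg_sq (a : Bool) : sg a * sg a = 1 := by cases a <;> simp [sg]
theorem sg_abs (a : Bool) : |sg a| = 1 := by cases a <;> simp [sg]
theorem sg_not (a : Bool) : sg (!a) = - sg a := by cases a <;> simp [sg]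
theorem sg_ne {a b : Bool} (h : a ≠ b) : sg a = - sg b := by
  cases a <;> cases b <;> simp_all [sg]

structure GeoOK (Φ : JB → (Fin 40 → ℝ) →ₗ[ℝ] ℝ) (Q M θ : ℝ) : Prop where
  hQ : 1 ≤ Q
  hM : 1 ≤ M
  hθ : 0 < θ
  hθ' : θ ≤ 1 / 20000
  g0 : ∀ c, ∃ p q : ℝ, 5 ≤ p ∧ p ≤ Q ∧ 5 ≤ q ∧ q ≤ Q ∧ ∀ η,
    Φ (c, 0) η = p * (Φ (c, 0) η - Φ (c, 1) η) + q * (Φ (c, 0) η - Φ (c, 2) η)
  g1 : ∀ c (j : JB), j.1 ≠ c → ∃ p q : ℝ, 5 ≤ p ∧ p ≤ Q ∧ 5 ≤ q ∧ q ≤ Q ∧ ∀ η,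
    Φ (c, 0) η - Φ j η = p * (Φ (c, 0) η - Φ (c, 1) η) + q * (Φ (c, 0) η - Φ (c, 2) η)
  g2 : ∀ c (j j' : JB), j ≠ (c, 0) → j' ≠ (c, 0) → j ≠ j' → ∀ η,
    |Φ (c, 0) η - Φ j η| ≤ 88 → |Φ (c, 0) η - Φ j' η| ≤ 88 →
    |Φ (c, 0) η - Φ (c, 1) η| ≤ 88 * Q ∧ |Φ (c, 0) η - Φ (c, 2) η| ≤ 88 * Q
  g3 : ∀ (c : CC) η, (∀ i, |η i - sg (c i)| ≤ 300 * θ) →
    1000 * Q ≤ Φ (c, 0) η - Φ (c, 1) η ∧ 1000 * Q ≤ Φ (c, 0) η - Φ (c, 2) η
  g4 : ∀ (c : CC) η i0, (∀ i, i ≠ i0 → |η i - sg (c i)| ≤ 300 * θ) →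
    1000 * Q ≤ |Φ (c, 0) η - Φ (c, 1) η| + |Φ (c, 0) η - Φ (c, 2) η|
  g5 : ∀ j η, (∀ i, |η i| ≤ 42) → |Φ j η| ≤ M

def sv (c : CC) : Fin 40 → ℝ := fun i => sg (c i)

theorem exists_lam : ∃ lam : Fin 40 → ℝ, lam 0 = 0 ∧ ∑ i, |lam i| ≤ 1 ∧
    ∀ c c' : CC, (∃ i, i ≠ 0 ∧ c i ≠ c' i) → lam ⬝ᵥ sv c ≠ lam ⬝ᵥ sv c' := by
  let ω : CC × CC → Fin 40 → ℝ := fun x i => if i = 0 then 0 else sg (x.1 i) - sg (x.2 i)
  obtain ⟨l, hl, h⟩ := avoid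
    ((fun x => LinearMap.ker (dotL (ω x))) '' {x | ∃ i, i ≠ 0 ∧ x.1 i ≠ x.2 i})
    ((Set.toFinite _).image _) (by
      rintro _ ⟨x, ⟨i, hi, hx⟩, rfl⟩ h
      have h1 : (Pi.single i 1 : Fin 40 → ℝ) ∈ LinearMap.ker (dotL (ω x)) := by
        simp only at h
        rw [h]; trivial
      have h2 := sg_ne hx
      have h3 := sg_sq (x.2 i)
      simp [dotL, ω, hi] at h1
      nlinarith) (Metric.ball 0 (1 / 40)) Metric.isOpen_ball ⟨0, by simp⟩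
  refine ⟨fun i => if i = 0 then 0 else l i, by simp, ?_, fun c c' hc e => ?_⟩
  · have : ∀ i ∈ Finset.univ, |if i = 0 then 0 else l i| ≤ (1 / 40 : ℝ) := by
      intro i _
      split_ifs
      · norm_num
      · have := norm_le_pi_norm l i
        simp only [Metric.mem_ball, dist_zero_right] at hl
        exact (this.trans hl.le)
    refine (Finset.sum_le_sum this).trans ?_
    simp
  · apply h _ ⟨(c, c'), hc, rfl⟩
    rw [← sub_eq_zero, ← dotProduct_sub] at e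
    simp only [LinearMap.mem_ker, dotL, LinearMap.coe_mk, AddHom.coe_mk]
    rw [← e]
    refine Finset.sum_congr rfl fun i _ => ?_
    by_cases hi : i = 0 <;> simp [ω, hi, sv, mul_comm]

theorem dot_bound (lam : Fin 40 → ℝ) (h0 : lam 0 = 0) (h1 : ∑ i, |lam i| ≤ 1) (η : Fin 40 → ℝ)
    (r : ℝ) (hr : 0 ≤ r) (h : ∀ i, i ≠ 0 → |η i| ≤ r) : |lam ⬝ᵥ η| ≤ r := by
  refine (Finset.abs_sum_le_sum_abs _ _).trans ?_
  have : ∀ i ∈ Finset.univ, |lam i * η i| ≤ |lam i| * r := by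
    intro i _
    by_cases hi : i = 0
    · simp [hi, h0]
    · rw [abs_mul]; exact mul_le_mul_of_nonneg_left (h i hi) (abs_nonneg _)
  refine (Finset.sum_le_sum this).trans ?_
  rw [← Finset.sum_mul]
  nlinarith

theorem pq_lem (δ A τ : ℝ) (hδ : 0 < δ) (h : 10 * δ ^ 2 + |τ| * δ ≤ A) :
    ∀ᶠ Q in atTop, ∃ p q : ℝ, 5 ≤ p ∧ p ≤ Q ∧ 5 ≤ q ∧ q ≤ Q ∧ ∀ a z : ℝ,
      A * a + 2 * τ * z = p * (δ ^ 2 * a + 2 * δ * z) + q * (δ ^ 2 * a - 2 * δ * z) := by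
  filter_upwards [eventually_ge_atTop ((A + τ * δ) / (2 * δ ^ 2)),
    eventually_ge_atTop ((A - τ * δ) / (2 * δ ^ 2))] with Q h1 h2
  have e1 := le_abs_self τ
  have e2 := neg_abs_le τ
  refine ⟨_, _, ?_, h1, ?_, h2, fun a z => ?_⟩
  · rw [le_div_iff₀ (by positivity)]; nlinarith
  · rw [le_div_iff₀ (by positivity)]; nlinarith
  · field_simp; ring

theorem det_lem (A τ A' τ' x y : ℝ) (h : τ * A' - τ' * A ≠ 0) :
    ∀ᶠ Q in atTop, ∀ a z : ℝ, |A * a + 2 * τ * z| ≤ 88 → |A' * a + 2 * τ' * z| ≤ 88 →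
      |x * a + y * z| ≤ 88 * Q := by
  filter_upwards [eventually_ge_atTop (|(y * A' / 2 - x * τ') / (τ * A' - τ' * A)| +
    |(x * τ - y * A / 2) / (τ * A' - τ' * A)|)] with Q hQ a z h1 h2
  have e : x * a + y * z = (y * A' / 2 - x * τ') / (τ * A' - τ' * A) * (A * a + 2 * τ * z) +
      (x * τ - y * A / 2) / (τ * A' - τ' * A) * (A' * a + 2 * τ' * z) := by
    rw [div_mul_eq_mul_div, div_mul_eq_mul_div, ← add_div, eq_div_iff h]; ring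
  rw [e]
  refine (abs_add_le _ _).trans ?_
  rw [abs_mul, abs_mul]
  have := mul_le_mul_of_nonneg_left h1 (abs_nonneg ((y * A' / 2 - x * τ') / (τ * A' - τ' * A)))
  have := mul_le_mul_of_nonneg_left h2 (abs_nonneg ((x * τ - y * A / 2) / (τ * A' - τ' * A)))
  linarith

theorem exists_delta (μ : CC → ℝ) (h1 : ∀ c, μ c ≠ 0)
    (h2 : ∀ c c' : CC, c ≠ c' → c 0 = c' 0 → μ c ≠ μ c') :
    ∃ δ : ℝ, 0 < δ ∧ δ ≤ 1 / 10 ∧ (∀ c, δ ≤ |μ c|) ∧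
      ∀ c c' : CC, c ≠ c' → c 0 = c' 0 → 10 * δ ≤ |μ c - μ c'| := by
  have key : ∀ r : ℝ, 0 < r → ∀ᶠ δ in 𝓝[>] (0:ℝ), δ ≤ r := fun r hr =>
    Filter.Eventually.filter_mono nhdsWithin_le_nhds (eventually_le_nhds hr)
  have e1 : ∀ᶠ δ in 𝓝[>] (0:ℝ), ∀ c, δ ≤ |μ c| :=
    eventually_all.2 fun c => key _ (abs_pos.2 (h1 c))
  have e2 : ∀ᶠ δ in 𝓝[>] (0:ℝ), ∀ c c' : CC, c ≠ c' → c 0 = c' 0 → 10 * δ ≤ |μ c - μ c'| := by
    refine eventually_all.2 fun c => eventually_all.2 fun c' => ?_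
    by_cases h : c ≠ c' ∧ c 0 = c' 0
    · have := abs_pos.2 (sub_ne_zero.2 (h2 c c' h.1 h.2))
      filter_upwards [key (|μ c - μ c'| / 10) (by positivity)] with δ hδ _ _
      linarith
    · exact Eventually.of_forall fun δ a b => absurd ⟨a, b⟩ h
  obtain ⟨δ, ⟨⟨a, b⟩, c⟩, e⟩ :=
    (((e1.and e2).and (key (1 / 10) (by norm_num))).and self_mem_nhdsWithin).exists
  exact ⟨δ, e, c, a, b⟩

def tt (μ : CC → ℝ) (δ : ℝ) (j : JB) : ℝ := μ j.1 + ![0, -δ, δ] j.2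

def AA (μ : CC → ℝ) (δ : ℝ) (c : CC) (j : JB) : ℝ :=
  (μ c - tt μ δ j) ^ 2 + (1 - sg (c 0) * sg (j.1 0)) * (10 - tt μ δ j ^ 2)

def Phi (lam : Fin 40 → ℝ) (μ : CC → ℝ) (δ m : ℝ) (j : JB) : (Fin 40 → ℝ) →ₗ[ℝ] ℝ :=
  (m * 2 * tt μ δ j) • dotL lam + (m * sg (j.1 0) * (10 - tt μ δ j ^ 2)) • LinearMap.proj 0

theorem Phi_sub (lam : Fin 40 → ℝ) (μ : CC → ℝ) (δ m : ℝ) (c : CC) (j : JB) (η : Fin 40 → ℝ) :
    Phi lam μ δ m (c, 0) η - Phi lam μ δ m j η =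
      AA μ δ c j * (m * (sg (c 0) * η 0)) +
        2 * (μ c - tt μ δ j) * (m * (lam ⬝ᵥ η - μ c * (sg (c 0) * η 0))) := by
  have e : tt μ δ (c, 0) = μ c := by simp [tt]
  simp only [Phi, e, AA, dotL, LinearMap.add_apply, LinearMap.smul_apply, LinearMap.coe_mk,
    AddHom.coe_mk, LinearMap.proj_apply, smul_eq_mul]
  linear_combination (m * η 0 * sg (j.1 0) * (10 - tt μ δ j ^ 2)) * sg_sq (c 0)

theorem Phi_zero (lam : Fin 40 → ℝ) (μ : CC → ℝ) (δ m : ℝ) (c : CC) (η : Fin 40 → ℝ) :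
    Phi lam μ δ m (c, 0) η = (μ c ^ 2 + 10) * (m * (sg (c 0) * η 0)) +
        2 * μ c * (m * (lam ⬝ᵥ η - μ c * (sg (c 0) * η 0))) := by
  have e : tt μ δ (c, 0) = μ c := by simp [tt]
  simp only [Phi, e, dotL, LinearMap.add_apply, LinearMap.smul_apply, LinearMap.coe_mk,
    AddHom.coe_mk, LinearMap.proj_apply, smul_eq_mul]
  ring

theorem Phi_one (lam : Fin 40 → ℝ) (μ : CC → ℝ) (δ m : ℝ) (c : CC) (η : Fin 40 → ℝ) :
    Phi lam μ δ m (c, 0) η - Phi lam μ δ m (c, 1) η = δ ^ 2 * (m * (sg (c 0) * η 0)) +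
        2 * δ * (m * (lam ⬝ᵥ η - μ c * (sg (c 0) * η 0))) := by
  rw [Phi_sub]
  simp [AA, tt, sg_sq]

theorem Phi_two (lam : Fin 40 → ℝ) (μ : CC → ℝ) (δ m : ℝ) (c : CC) (η : Fin 40 → ℝ) :
    Phi lam μ δ m (c, 0) η - Phi lam μ δ m (c, 2) η = δ ^ 2 * (m * (sg (c 0) * η 0)) -
        2 * δ * (m * (lam ⬝ᵥ η - μ c * (sg (c 0) * η 0))) := by
  rw [Phi_sub]
  simp [AA, tt, sg_sq]
  ring

theorem tt_near (μ : CC → ℝ) (δ : ℝ) (hδ : 0 < δ) (j : JB) : |tt μ δ j - μ j.1| ≤ δ := by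
  obtain ⟨c, k⟩ := j
  fin_cases k <;> simp [tt, abs_of_pos hδ, hδ.le]

theorem tt_inj (μ : CC → ℝ) (δ : ℝ) (hδ : 0 < δ)
    (h : ∀ c c' : CC, c ≠ c' → c 0 = c' 0 → 10 * δ ≤ |μ c - μ c'|) (j j' : JB) (hj : j ≠ j')
    (hs : j.1 0 = j'.1 0) : tt μ δ j ≠ tt μ δ j' := by
  intro e
  by_cases hc : j.1 = j'.1
  · obtain ⟨c, k⟩ := j
    obtain ⟨c', k'⟩ := j'
    simp only at hc
    subst hc
    fin_cases k <;> fin_cases k' <;> simp [tt] at e hj <;> linarith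
  · have h1 := h _ _ hc hs
    have h2 := abs_le.1 (tt_near μ δ hδ j)
    have h3 := abs_le.1 (tt_near μ δ hδ j')
    have : |μ j.1 - μ j'.1| ≤ 2 * δ := abs_le.2 ⟨by linarith, by linarith⟩
    linarith

theorem sg_cases (a b : Bool) : (a = b ∧ sg a * sg b = 1) ∨ (a ≠ b ∧ sg a * sg b = -1) := by
  cases a <;> cases b <;> simp [sg]

theorem det_ne (μ : CC → ℝ) (δ : ℝ) (hδ : 0 < δ) (hδ' : δ ≤ 1 / 10) (hμ : ∀ c, |μ c| ≤ 1)
    (h : ∀ c c' : CC, c ≠ c' → c 0 = c' 0 → 10 * δ ≤ |μ c - μ c'|) (c : CC) (j j' : JB)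
    (h1 : j ≠ (c, 0)) (h2 : j' ≠ (c, 0)) (h3 : j ≠ j') :
    (μ c - tt μ δ j) * AA μ δ c j' - (μ c - tt μ δ j') * AA μ δ c j ≠ 0 := by
  have e : tt μ δ (c, 0) = μ c := by simp [tt]
  have a1 := abs_le.1 (tt_near μ δ hδ j)
  have a2 := abs_le.1 (tt_near μ δ hδ j')
  have a3 := abs_le.1 (hμ c)
  have a4 := abs_le.1 (hμ j.1)
  have a5 := abs_le.1 (hμ j'.1)
  have b1 : c 0 = j.1 0 → μ c - tt μ δ j ≠ 0 := fun hs =>
    sub_ne_zero.2 (e ▸ tt_inj μ δ hδ h (c, 0) j h1.symm hs)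
  have b2 : c 0 = j'.1 0 → μ c - tt μ δ j' ≠ 0 := fun hs =>
    sub_ne_zero.2 (e ▸ tt_inj μ δ hδ h (c, 0) j' h2.symm hs)
  have b3 : j.1 0 = j'.1 0 → tt μ δ j - tt μ δ j' ≠ 0 := fun hs =>
    sub_ne_zero.2 (tt_inj μ δ hδ h j j' h3 hs)
  unfold AA
  set t := tt μ δ j
  set t' := tt μ δ j'
  set x := μ c
  have c1 : t ^ 2 ≤ 2 := by nlinarith
  have c2 : t' ^ 2 ≤ 2 := by nlinarith
  have c3 : x ^ 2 ≤ 1 := by nlinarith
  have c4 : |(x - t) * (x - t')| ≤ 9 := by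
    rw [abs_mul]
    have : |x - t| ≤ 3 := abs_le.2 ⟨by linarith, by linarith⟩
    have : |x - t'| ≤ 3 := abs_le.2 ⟨by linarith, by linarith⟩
    nlinarith [abs_nonneg (x - t), abs_nonneg (x - t')]
  have c5 := abs_le.1 c4
  rcases sg_cases (c 0) (j.1 0) with ⟨s1, r1⟩ | ⟨s1, r1⟩ <;>
    rcases sg_cases (c 0) (j'.1 0) with ⟨s2, r2⟩ | ⟨s2, r2⟩ <;> rw [r1, r2]
  · have := mul_ne_zero (mul_ne_zero (b1 s1) (b2 s2)) (b3 (s1.symm.trans s2))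
    intro h0; apply this; linear_combination h0
  · have : (x - t') ^ 2 + 2 * (10 - t' ^ 2) - (x - t) * (x - t') ≠ 0 := by
      nlinarith [sq_nonneg (x - t')]
    have := mul_ne_zero (b1 s1) this
    intro h0; apply this; linear_combination h0
  · have : (x - t) ^ 2 + 2 * (10 - t ^ 2) - (x - t) * (x - t') ≠ 0 := by
      nlinarith [sq_nonneg (x - t)]
    have := mul_ne_zero (b2 s2) this
    intro h0; apply this; linear_combination -h0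
  · have : 20 - 2 * x ^ 2 + (x - t) * (x - t') ≠ 0 := by nlinarith
    have s3 : j.1 0 = j'.1 0 := by
      revert s1 s2; cases c 0 <;> cases j.1 0 <;> cases j'.1 0 <;> simp
    have := mul_ne_zero (b3 s3) this
    intro h0; apply this; linear_combination -h0

theorem AA_big (μ : CC → ℝ) (δ : ℝ) (hδ : 0 < δ) (hδ' : δ ≤ 1 / 10) (hμ : ∀ c, |μ c| ≤ 1)
    (h : ∀ c c' : CC, c ≠ c' → c 0 = c' 0 → 10 * δ ≤ |μ c - μ c'|) (c : CC) (j : JB)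
    (h1 : j.1 ≠ c) : 10 * δ ^ 2 + |μ c - tt μ δ j| * δ ≤ AA μ δ c j := by
  have a1 := abs_le.1 (tt_near μ δ hδ j)
  have a3 := abs_le.1 (hμ c)
  have a4 := abs_le.1 (hμ j.1)
  unfold AA
  rcases sg_cases (c 0) (j.1 0) with ⟨s1, r1⟩ | ⟨s1, r1⟩ <;> rw [r1]
  · have h2 := h c j.1 h1.symm s1
    have h3 : 9 * δ ≤ |μ c - tt μ δ j| := by
      have := abs_sub_le (μ c) (tt μ δ j) (μ j.1)
      have := tt_near μ δ hδ j
      linarith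
    rw [← sq_abs (μ c - tt μ δ j)]
    nlinarith
  · have : |μ c - tt μ δ j| ≤ 3 := abs_le.2 ⟨by linarith, by linarith⟩
    have c1 : tt μ δ j ^ 2 ≤ 2 := by nlinarith
    nlinarith [sq_nonneg (μ c - tt μ δ j)]

theorem exists_geo : ∃ Φ Q M θ, GeoOK Φ Q M θ := by
  obtain ⟨lam, l0, l1, l2⟩ := exists_lam
  let μ : CC → ℝ := fun c => lam ⬝ᵥ sv c
  have hμ : ∀ c, |μ c| ≤ 1 := fun c =>
    dot_bound lam l0 l1 _ 1 zero_le_one fun i _ => (sg_abs _).le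
  obtain ⟨δ, hδ, hδ', d1, d2⟩ := exists_delta μ
    (by
      intro c h
      apply l2 c (fun i => !c i) ⟨1, by decide, by simp⟩
      have : sv (fun i => !c i) = - sv c := by funext i; simp [sv, sg_not]
      rw [this, dotProduct_neg]
      change μ c = - μ c
      rw [h, neg_zero])
    (by
      intro c c' h h0
      obtain ⟨i, hi⟩ := Function.ne_iff.1 h
      exact l2 c c' ⟨i, fun e => hi (e ▸ h0), hi⟩)
  have E0 : ∀ᶠ Q in atTop, ∀ c : CC, ∃ p q : ℝ, 5 ≤ p ∧ p ≤ Q ∧ 5 ≤ q ∧ q ≤ Q ∧ ∀ a z : ℝ,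
      (μ c ^ 2 + 10) * a + 2 * μ c * z =
        p * (δ ^ 2 * a + 2 * δ * z) + q * (δ ^ 2 * a - 2 * δ * z) :=
    eventually_all.2 fun c => pq_lem δ _ _ hδ (by nlinarith [hμ c, sq_nonneg (μ c)])
  have E1 : ∀ᶠ Q in atTop, ∀ (c : CC) (j : JB), j.1 ≠ c →
      ∃ p q : ℝ, 5 ≤ p ∧ p ≤ Q ∧ 5 ≤ q ∧ q ≤ Q ∧ ∀ a z : ℝ,
      AA μ δ c j * a + 2 * (μ c - tt μ δ j) * z =
        p * (δ ^ 2 * a + 2 * δ * z) + q * (δ ^ 2 * a - 2 * δ * z) := by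
    refine eventually_all.2 fun c => eventually_all.2 fun j => ?_
    by_cases h : j.1 ≠ c
    · filter_upwards [pq_lem δ _ _ hδ (AA_big μ δ hδ hδ' hμ d2 c j h)] with Q hQ _ using hQ
    · exact Eventually.of_forall fun Q a => absurd a h
  have E2 : ∀ᶠ Q in atTop, ∀ (c : CC) (j j' : JB), j ≠ (c, 0) → j' ≠ (c, 0) → j ≠ j' →
      ∀ a z : ℝ, |AA μ δ c j * a + 2 * (μ c - tt μ δ j) * z| ≤ 88 →
        |AA μ δ c j' * a + 2 * (μ c - tt μ δ j') * z| ≤ 88 →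
        |δ ^ 2 * a + 2 * δ * z| ≤ 88 * Q ∧ |δ ^ 2 * a - 2 * δ * z| ≤ 88 * Q := by
    refine eventually_all.2 fun c => eventually_all.2 fun j => eventually_all.2 fun j' => ?_
    by_cases h : j ≠ (c, 0) ∧ j' ≠ (c, 0) ∧ j ≠ j'
    · have hd := det_ne μ δ hδ hδ' hμ d2 c j j' h.1 h.2.1 h.2.2
      filter_upwards [det_lem _ _ _ _ (δ ^ 2) (2 * δ) hd, det_lem _ _ _ _ (δ ^ 2) (-(2 * δ)) hd]
        with Q h1 h2 _ _ _ a z h3 h4
      refine ⟨h1 a z h3 h4, ?_⟩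
      have := h2 a z h3 h4
      rwa [neg_mul, ← sub_eq_add_neg] at this
    · exact Eventually.of_forall fun Q a b c => absurd ⟨a, b, c⟩ h
  obtain ⟨Q, ⟨⟨q0, q1⟩, q2⟩, hQ⟩ := (((E0.and E1).and E2).and (eventually_ge_atTop 1)).exists
  obtain ⟨m, hm, hm'⟩ : ∃ m : ℝ, 0 < m ∧ m * δ ^ 3 = 2000 * Q :=
    ⟨2000 * Q / δ ^ 3, by positivity, by field_simp⟩
  have E3 : ∀ᶠ M in atTop, ∀ (j : JB) (η : Fin 40 → ℝ), (∀ i, |η i| ≤ 42) →
      |Phi lam μ δ m j η| ≤ M := by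
    refine eventually_all.2 fun j => ?_
    filter_upwards [eventually_ge_atTop (|m * 2 * tt μ δ j| * 42 +
      |m * sg (j.1 0) * (10 - tt μ δ j ^ 2)| * 42)] with M hM η hη
    have h1 := dot_bound lam l0 l1 η 42 (by norm_num) fun i _ => hη i
    simp only [Phi, dotL, LinearMap.add_apply, LinearMap.smul_apply, LinearMap.coe_mk,
      AddHom.coe_mk, LinearMap.proj_apply, smul_eq_mul]
    refine (abs_add_le _ _).trans (le_trans ?_ hM)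
    rw [abs_mul _ (lam ⬝ᵥ η), abs_mul _ (η 0)]
    exact add_le_add (mul_le_mul_of_nonneg_left h1 (abs_nonneg _))
      (mul_le_mul_of_nonneg_left (hη 0) (abs_nonneg _))
  obtain ⟨M, hM1, hM⟩ := (E3.and (eventually_ge_atTop 1)).exists
  have near1 : ∀ (c : CC) (η : Fin 40 → ℝ), (∀ i, i ≠ 0 → |η i - sg (c i)| ≤ 300 * (δ / 3000)) →
      |lam ⬝ᵥ η - μ c| ≤ δ / 10 := by
    intro c η h
    have := dot_bound lam l0 l1 (η - sv c) (δ / 10) (by positivity) fun i hi => by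
      have := h i hi
      simp only [Pi.sub_apply, sv]
      linarith
    rwa [dotProduct_sub] at this
  have near2 : ∀ (c : CC) (η : Fin 40 → ℝ), |η 0 - sg (c 0)| ≤ 300 * (δ / 3000) →
      |sg (c 0) * η 0 - 1| ≤ δ / 10 := by
    intro c η h
    have : sg (c 0) * η 0 - 1 = sg (c 0) * (η 0 - sg (c 0)) := by
      linear_combination sg_sq (c 0)
    rw [this, abs_mul, sg_abs]
    linarith
  refine ⟨Phi lam μ δ m, Q, M, δ / 3000, hQ, hM, by positivity, by linarith, ?_, ?_, ?_, ?_, ?_,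
    hM1⟩
  · intro c
    obtain ⟨p, q, a1, a2, a3, a4, a5⟩ := q0 c
    exact ⟨p, q, a1, a2, a3, a4, fun η => by rw [Phi_one, Phi_two, Phi_zero, a5]⟩
  · intro c j hj
    obtain ⟨p, q, a1, a2, a3, a4, a5⟩ := q1 c j hj
    exact ⟨p, q, a1, a2, a3, a4, fun η => by rw [Phi_one, Phi_two, Phi_sub, a5]⟩
  · intro c j j' h1 h2 h3 η h4 h5
    rw [Phi_sub] at h4 h5
    rw [Phi_one, Phi_two]
    exact q2 c j j' h1 h2 h3 _ _ h4 h5
  · intro c η h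
    have h1 := near1 c η fun i _ => h i
    have h2 := near2 c η (h 0)
    rw [Phi_one, Phi_two]
    set a := sg (c 0) * η 0
    have h3 : |lam ⬝ᵥ η - μ c * a| ≤ δ / 5 := by
      have e : lam ⬝ᵥ η - μ c * a = (lam ⬝ᵥ η - μ c) - μ c * (a - 1) := by ring
      rw [e]
      refine (abs_sub _ _).trans ?_
      rw [abs_mul]
      nlinarith [hμ c, abs_nonneg (μ c), abs_nonneg (a - 1)]
    set z := lam ⬝ᵥ η - μ c * a
    have h4 := abs_le.1 h2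
    have h5 := abs_le.1 h3
    have k0 : δ * (9 / 10) ≤ δ * a := mul_le_mul_of_nonneg_left (by linarith) hδ.le
    have k3 : δ ^ 2 / 2 ≤ δ * a + 2 * z := by nlinarith
    have k4 : δ ^ 2 / 2 ≤ δ * a - 2 * z := by nlinarith
    have k1 := mul_le_mul_of_nonneg_left k3 (show 0 ≤ m * δ by positivity)
    have k2 := mul_le_mul_of_nonneg_left k4 (show 0 ≤ m * δ by positivity)
    constructor <;> nlinarith
  · intro c η i0 h
    rw [Phi_one, Phi_two]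
    set a := sg (c 0) * η 0 with ha
    set z := lam ⬝ᵥ η - μ c * a with hz
    have k1 := le_abs_self (δ ^ 2 * (m * a) + 2 * δ * (m * z))
    have k2 := le_abs_self (δ ^ 2 * (m * a) - 2 * δ * (m * z))
    have k3 := neg_abs_le (δ ^ 2 * (m * a) + 2 * δ * (m * z))
    have k4 := neg_abs_le (δ ^ 2 * (m * a) - 2 * δ * (m * z))
    set U := |δ ^ 2 * (m * a) + 2 * δ * (m * z)|
    set V := |δ ^ 2 * (m * a) - 2 * δ * (m * z)|
    by_cases hi : i0 = 0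
    · have h1 := near1 c η fun i hi' => h i (hi ▸ hi')
      have h2 : 9 * δ / 10 ≤ |lam ⬝ᵥ η| := by
        have := abs_sub_abs_le_abs_sub (μ c) (lam ⬝ᵥ η)
        rw [abs_sub_comm] at h1
        linarith [d1 c]
      have h3 : |δ ^ 2 * (m * a)| ≤ (U + V) / 2 := abs_le.2 ⟨by linarith, by linarith⟩
      have h4 : |δ * (m * z)| ≤ (U + V) / 4 := abs_le.2 ⟨by linarith, by linarith⟩
      have h5 : δ ^ 2 * m * (lam ⬝ᵥ η) = δ * (δ * (m * z)) + μ c * (δ ^ 2 * (m * a)) := by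
        rw [hz]; ring
      have h6 : δ ^ 2 * m * |lam ⬝ᵥ η| ≤ U + V := by
        rw [← abs_of_pos (show 0 < δ ^ 2 * m by positivity), ← abs_mul, h5]
        refine (abs_add_le _ _).trans ?_
        rw [abs_mul δ, abs_mul (μ c), abs_of_pos hδ]
        nlinarith [hμ c, abs_nonneg (μ c), abs_nonneg (δ ^ 2 * (m * a)), abs_nonneg (δ * (m * z))]
      have := mul_le_mul_of_nonneg_left h2 (show 0 ≤ δ ^ 2 * m by positivity)
      nlinarith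
    · have h2 := abs_le.1 (near2 c η (h 0 (Ne.symm hi)))
      have h3 : δ / 2 ≤ a := by linarith
      have := mul_le_mul_of_nonneg_left h3 (show 0 ≤ δ ^ 2 * m by positivity)
      nlinarith

end Pool.Agent.MP_d68894_co.H53
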