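import Pool.Agent.MP_d68894_co.H53.Walk

set_option autoImplicit false
open Matrix Module

namespace Pool.Agent.MP_d68894_co.H53

theorem exists_par : Nonempty Par := by
  obtain ⟨Φ, Q, M, θ, h⟩ := exists_geo
  have h0 := h.hθ
  obtain ⟨T, hT⟩ : ∃ T : ℝ, θ * T = 45 := ⟨45 / θ, by field_simp⟩
  refine ⟨⟨Φ, Q, M, θ, M * T ^ 40 * T, fun β => M * T ^ (40 - β), h, by simp, ?_, ?_⟩⟩
  · intro β hβ
    rw [show 40 - β = 40 - (β + 1) + 1 by omega, pow_succ, ← hT]
    apply le_of_eq
    ring
  · rw [← hT]
    apply le_of_eq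
    ring

theorem ms_add (p q : Pt) (β : ℕ) : ms (p + q) β = ms p β + ms q β := by
  cases β with
  | zero => rfl
  | succ k => simp only [ms]; split_ifs <;> simp [mass]; ring

theorem ms_smul (a : ℝ) (p : Pt) (β : ℕ) : ms (a • p) β = a * ms p β := by
  cases β with
  | zero => rfl
  | succ k => simp only [ms]; split_ifs <;> simp [mass]; ring

noncomputable def LfL (P : Par) (j : JJ) : Pt →ₗ[ℝ] ℝ where
  toFun := P.Lf j
  map_add' p q := by
    have e : eta (p + q) = eta p + eta q := by funext i; simp [eta]; ring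
    rcases j with k | j <;>
      simp only [Par.Lf, Par.lin, tot_eq, ms_add, e, map_add, Finset.sum_add_distrib] <;> ring
  map_smul' a p := by
    have e : eta (a • p) = a • eta p := by funext i; simp [eta]; ring
    rcases j with k | j <;>
      simp only [Par.Lf, Par.lin, tot_eq, ms_smul, e, map_smul, ← Finset.mul_sum, smul_eq_mul,
        RingHom.id_apply] <;> ring

theorem Lf_sum (P : Par) (j : JJ) (p : Pt) :
    P.Lf j p = ∑ o, p o * P.Lf j (Pi.single o 1) := by
  change LfL P j p = ∑ o, p o • LfL P j (Pi.single o 1)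
  conv_lhs => rw [pi_eq_sum_univ' p]
  simp

theorem Lf_inj (P : Par) (p : Pt) (h : ∀ j, P.Lf j p = 0) : p = 0 := by
  have n0 := P.N_ge 0 (by omega)
  have s0 := P.S_big
  have h1 : ∀ β : Fin 40, tot p = 0 ∧ ms p β = 0 := by
    intro β
    have a := h (Sum.inl (β, true))
    have b := h (Sum.inl (β, false))
    have n := P.N_ge β β.2.le
    simp only [Par.Lf, Par.lin, sg, if_true, Bool.false_eq_true, if_false] at a b
    have c : P.S * tot p = 0 := by linarith
    have e : P.N β * ms p β = 0 := by linarith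
    exact ⟨(mul_eq_zero.1 c).resolve_left (by linarith), (mul_eq_zero.1 e).resolve_left (by linarith)⟩
  have h2 : tot p = 0 := (h1 0).1
  have h3 : ∀ β < 40, ms p β = 0 := fun β hβ => (h1 ⟨β, hβ⟩).2
  have h4 : ms p 40 = 0 := by
    rw [tot_eq, Finset.sum_range_succ,
      Finset.sum_eq_zero fun β hβ => h3 β (Finset.mem_range.1 hβ)] at h2
    linarith
  have h5 : ∀ i, mass p i = 0 := by
    intro i
    rw [← ms_succ]
    by_cases hi : (i : ℕ) + 1 < 40
    · exact h3 _ hi
    · rw [show (i : ℕ) + 1 = 40 by omega, h4]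
  have h6 : ∀ c : CC, sv c ⬝ᵥ eta p = 0 := by
    intro c
    have a := h (Sum.inr (c, 0))
    have b := h (Sum.inr (c, 1))
    have e := h (Sum.inr (c, 2))
    simp [Par.Lf, Par.lin, Par.Ψ, h2, dotL] at a b e
    obtain ⟨x, y, h7, -, h8, -, h9⟩ := P.geo.g0 c
    have := h9 (eta p)
    have : (x + y) * (sv c ⬝ᵥ eta p) = 0 := by
      rw [a] at this
      linear_combination x * b + y * e - this
    exact (mul_eq_zero.1 this).resolve_left (by linarith)
  have h7 : ∀ i, eta p i = 0 := by
    have a := h6 fun i => decide (0 ≤ eta p i)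
    have b : ∀ i, sv (fun i => decide (0 ≤ eta p i)) i * eta p i = |eta p i| := by
      intro i
      by_cases hi : 0 ≤ eta p i
      · simp [sv, sg, hi, abs_of_nonneg hi]
      · simp [sv, sg, hi, abs_of_neg (not_le.1 hi)]
    simp only [dotProduct, b] at a
    intro i
    exact abs_eq_zero.1 ((Finset.sum_eq_zero_iff_of_nonneg fun i _ => abs_nonneg _).1 a i
      (Finset.mem_univ _))
  funext o
  rcases o with _ | ⟨i, a⟩
  · exact h3 0 (by omega)
  · have a1 := h5 i
    have a2 := h7 i
    unfold mass at a1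
    unfold eta at a2
    cases a <;> simp only [Pi.zero_apply] <;> linarith

theorem ext_mat {d : ℕ} (col : Option KK → Fin d → ℝ) (hli : LinearIndependent ℝ col) (ε : ℝ)
    (hε : 0 < ε) :
    ∃ (ι : Option KK → Fin d) (B : Matrix (Fin d) (Fin d) ℝ), Function.Injective ι ∧ IsUnit B ∧
      (∀ j o, B j (ι o) = col o j) ∧
      ∀ j a, (∀ k, a ≠ ι (some k)) → |B j a - col none j| ≤ ε := by
  classical
  let e := (Basis.sumExtend hli).indexEquiv (Pi.basisFun ℝ (Fin d))
  let bs := (Basis.sumExtend hli).reindex e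
  let ι : Option KK → Fin d := fun o => e (Sum.inl o)
  have hb : ∀ o, bs (ι o) = col o := by
    intro o
    simp only [bs, ι, Basis.reindex_apply, Equiv.symm_apply_apply]
    simp [Basis.sumExtend]
    rfl
  let cB : Fin d → Fin d → ℝ := fun a =>
    if a ∈ Set.range ι then bs a else col none + (ε / (‖bs a‖ + 1)) • bs a
  refine ⟨ι, Matrix.of fun j a => cB a j, fun o o' h => Sum.inl_injective (e.injective h), ?_,
    fun j o => by simp [cB, hb], fun j a ha => ?_⟩
  · rw [← Matrix.linearIndependent_cols_iff_isUnit]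
    change LinearIndependent ℝ cB
    rw [Fintype.linearIndependent_iff]
    intro g hg
    have h1 : ∀ a, a ∉ Set.range ι → g a = 0 := by
      intro a0 ha0
      have h2 := congrArg (fun x => bs.repr x a0) hg
      simp only [map_sum, map_smul, Finsupp.coe_finsetSum, Finsupp.coe_smul, Finset.sum_apply,
        Pi.smul_apply, smul_eq_mul, map_zero, Finsupp.coe_zero, Pi.zero_apply] at h2
      have h3 : ι none ≠ a0 := fun h => ha0 ⟨none, h⟩
      rw [Finset.sum_eq_single a0] at h2
      · simp only [cB, if_neg ha0, ← hb none, map_add, map_smul, Basis.repr_self] at h2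
        have : ε / (‖bs a0‖ + 1) ≠ 0 := by positivity
        simpa [h3, this] using h2
      · intro a _ ha
        by_cases h : a ∈ Set.range ι
        · simp only [cB, if_pos h, Basis.repr_self]
          simp [ha]
        · simp only [cB, if_neg h, ← hb none, map_add, map_smul, Basis.repr_self]
          simp [h3, ha]
      · simp
    apply Fintype.linearIndependent_iff.1 bs.linearIndependent g
    rw [← hg]
    refine Finset.sum_congr rfl fun a _ => ?_
    by_cases h : a ∈ Set.range ι
    · simp only [cB, if_pos h]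
    · simp [h1 a h]
  · by_cases h : a ∈ Set.range ι
    · obtain ⟨o, rfl⟩ := h
      rcases o with _ | k
      · simp [cB, hb, hε.le]
      · exact absurd rfl (ha k)
    · simp only [Matrix.of_apply, cB, if_neg h, Pi.add_apply, add_sub_cancel_left, Pi.smul_apply,
        smul_eq_mul]
      have h1 : |bs a j| ≤ ‖bs a‖ := norm_le_pi_norm (bs a) j
      rw [abs_mul, abs_of_pos (by positivity), div_mul_eq_mul_div, div_le_iff₀ (by positivity)]
      nlinarith

theorem OK_of (P : Par) (p : Pt) (f : JJ → ℝ) (nn : ∀ k, 0 ≤ p k) (fe : ∀ j, 0 ≤ f j)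
    (ap : ∀ j, |f j - (P.hh p - P.ell j p)| ≤ (2 + p none) / 50) : OK P p f := by
  refine ⟨nn, fe, fun j => (ap j).trans ?_⟩
  have a := abs_le.1 (ap (Sum.inl (0, true)))
  have b := abs_le.1 (ap (Sum.inl (0, false)))
  have c := fe (Sum.inl (0, true))
  have e := fe (Sum.inl (0, false))
  simp only [Par.ell, Par.lin, Par.cst, sg, if_true, Bool.false_eq_true, if_false] at a b
  have h1 : - ((2 + p none) / 50) ≤ P.S * (41 - tot p) := by
    change _ ≤ P.hh p
    linarith
  have h2 : p none ≤ tot p := le_add_of_nonneg_right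
    (Finset.sum_nonneg fun i _ => add_nonneg (nn _) (nn _))
  have n0 := P.N_ge 0 (by omega)
  have s0 := P.S_big
  by_contra h3
  nlinarith

noncomputable def v0 : Pt
  | none => 1
  | some _ => 1 / 2

theorem Lf_v0 (P : Par) (j : JJ) : P.Lf j v0 = P.S * 41 + P.cst j := by
  have h1 : ∀ i, mass v0 i = 1 := fun i => by norm_num [mass, v0]
  have h2 : tot v0 = 41 := by norm_num [tot, h1, v0]
  have h3 : eta v0 = 0 := by funext i; simp [eta, v0]
  have h4 : ∀ β : Fin 40, ms v0 β = 1 := by
    rintro ⟨_ | k, hk⟩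
    · rfl
    · simp only [ms]; rw [dif_pos (by omega), h1]
  rcases j with k | j <;> simp [Par.Lf, Par.lin, Par.cst, h2, h3, h4]

theorem c0_ge (P : Par) (j : JJ) : 2 ≤ P.Lf j v0 := by
  have n0 := P.N_ge 0 (by omega)
  have s0 := P.S_big
  rw [Lf_v0]
  rcases j with ⟨β, e⟩ | j
  · have := P.N_anti 0 β (by omega) β.2.le
    have := P.N_ge β β.2.le
    cases e <;> simp only [Par.cst, sg, if_true, Bool.false_eq_true, if_false] <;> linarith
  · simp only [Par.cst]; linarith

end Pool.Agent.MP_d68894_co.H53
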