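import Pool.Agent.MP_d68894_co.H53.Geo

set_option autoImplicit false
open Matrix

namespace Pool.Agent.MP_d68894_co.H53

abbrev KK := Fin 40 × Bool
abbrev Pt := Option KK → ℝ
abbrev JJ := KK ⊕ JB

def mass (p : Pt) (i : Fin 40) : ℝ := p (some (i, true)) + p (some (i, false))
def eta (p : Pt) : Fin 40 → ℝ := fun i => p (some (i, true)) - p (some (i, false))
def tot (p : Pt) : ℝ := p none + ∑ i, mass p i
def ms (p : Pt) : ℕ → ℝ
  | 0 => p none
  | k + 1 => if h : k < 40 then mass p ⟨k, h⟩ else 0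
def Fr (p : Pt) (t : ℕ) : ℝ := ∑ β ∈ Finset.Ico t 41, ms p β
def sc : JJ → ℕ
  | Sum.inl k => k.1
  | Sum.inr _ => 40

structure Par where
  Φ : JB → (Fin 40 → ℝ) →ₗ[ℝ] ℝ
  Q : ℝ
  M : ℝ
  θ : ℝ
  S : ℝ
  N : ℕ → ℝ
  geo : GeoOK Φ Q M θ
  N40 : N 40 = M
  hN : ∀ β < 40, 45 * N (β + 1) ≤ θ * N β
  hS : 45 * N 0 ≤ θ * S

noncomputable def Par.Ψ (P : Par) (j : JB) : (Fin 40 → ℝ) →ₗ[ℝ] ℝ :=
  P.Φ j + if j.2 = 0 then 0 else dotL (sv j.1)

noncomputable def Par.lin (P : Par) : JJ → Pt → ℝ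
  | Sum.inl k, p => sg k.2 * P.N k.1 * ms p k.1
  | Sum.inr j, p => P.Ψ j (eta p)

noncomputable def Par.cst (P : Par) : JJ → ℝ
  | Sum.inl k => sg k.2 * P.N k.1
  | Sum.inr _ => 0

noncomputable def Par.Lf (P : Par) (j : JJ) (p : Pt) : ℝ := P.S * tot p + P.lin j p
def Par.hh (P : Par) (p : Pt) : ℝ := P.S * (41 - tot p)
noncomputable def Par.ell (P : Par) (j : JJ) (p : Pt) : ℝ := P.lin j p - P.cst j

structure OK (P : Par) (p : Pt) (f : JJ → ℝ) : Prop where
  nn : ∀ k, 0 ≤ p k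
  fe : ∀ j, 0 ≤ f j
  ap : ∀ j, |f j - (P.hh p - P.ell j p)| ≤ 1

def Mn (P : Par) (p : Pt) (f : JJ → ℝ) (p' : Pt) (f' : JJ → ℝ) : Prop :=
  ∀ h : Pt, h ≠ 0 → h none = 0 → (∀ k, p' (some k) = p (some k) → h (some k) = 0) →
    (∀ j, f' j = f j → P.Lf j h = 0) →
    (∀ k, h k = 0 → p' k = p k) ∧ ∀ j, P.Lf j h = 0 → f' j = f j

theorem mass_eq (p : Pt) (i : Fin 40) (a : Bool) :
    mass p i = p (some (i, a)) + p (some (i, !a)) := by
  cases a <;> simp [mass, add_comm]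

theorem eta_eq (p : Pt) (i : Fin 40) (a : Bool) :
    eta p i = sg a * (p (some (i, a)) - p (some (i, !a))) := by
  cases a <;> simp [eta, sg]

theorem ms_succ (p : Pt) (i : Fin 40) : ms p (i + 1) = mass p i := by
  simp [ms]

theorem tot_eq (p : Pt) : tot p = ∑ β ∈ Finset.range 41, ms p β := by
  rw [Finset.sum_range_succ', tot, add_comm, Finset.sum_range]
  simp only [ms_succ]
  rfl

theorem Fr_succ (p : Pt) (t : ℕ) (ht : t ≤ 40) : Fr p t = ms p t + Fr p (t + 1) :=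
  Finset.sum_eq_sum_Ico_succ_bot (by omega) _

theorem Fr_le (p p' : Pt) (t : ℕ) (h : ∀ k : KK, t ≤ k.1 → p (some k) ≤ p' (some k)) :
    Fr p (t + 1) ≤ Fr p' (t + 1) := by
  refine Finset.sum_le_sum fun β hβ => ?_
  rw [Finset.mem_Ico] at hβ
  obtain ⟨k, rfl⟩ : ∃ k, β = k + 1 := ⟨β - 1, by omega⟩
  have hk : k < 40 := by omega
  simp only [ms, hk, dif_pos, mass]
  exact add_le_add (h (⟨k, hk⟩, true) (by simp; omega)) (h (⟨k, hk⟩, false) (by simp; omega))

theorem Fr_zero (p : Pt) (t : ℕ) (h : ∀ k : KK, t ≤ k.1 → p (some k) = 0) : Fr p (t + 1) = 0 := by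
  have h0 : Fr 0 (t + 1) = 0 := by
    refine Finset.sum_eq_zero fun β _ => ?_
    cases β <;> simp [ms, mass]
  exact le_antisymm (h0 ▸ Fr_le p 0 t fun k hk => (h k hk).le)
    (h0 ▸ Fr_le 0 p t fun k hk => (h k hk).ge)

namespace Par
variable (P : Par)

theorem N_ge (β : ℕ) (hβ : β ≤ 40) : 1 ≤ P.N β := by
  have : ∀ m β, β + m = 40 → 1 ≤ P.N β := by
    intro m
    induction m with
    | zero => intro β h; rw [show β = 40 by omega, P.N40]; exact P.geo.hM
    | succ m ih =>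
      intro β h
      have h1 := ih (β + 1) (by omega)
      have h2 := P.hN β (by omega)
      have h3 := P.geo.hθ
      have h4 := P.geo.hθ'
      by_contra h5
      nlinarith
  exact this (40 - β) β (by omega)

theorem N_anti (β γ : ℕ) (h : β ≤ γ) (hγ : γ ≤ 40) : P.N γ ≤ P.N β := by
  induction γ, h using Nat.le_induction with
  | base => exact le_rfl
  | succ γ _ ih =>
    have h1 := ih (by omega)
    have h2 := P.hN γ (by omega)
    have h3 := P.geo.hθ'
    have h4 := P.N_ge γ (by omega)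
    have h5 := P.N_ge (γ + 1) (by omega)
    nlinarith

theorem N_lt (β γ : ℕ) (h : β < γ) (hγ : γ ≤ 40) : 45 * P.N γ ≤ P.θ * P.N β := by
  have := P.N_anti (β + 1) γ h hγ
  have := P.hN β (by omega)
  linarith

theorem S_big : 900000 * P.N 0 ≤ P.S := by
  have h1 := P.hS
  have h2 := P.geo.hθ
  have h3 := P.geo.hθ'
  have h4 := P.N_ge 0 (by omega)
  have : 0 < P.S := by by_contra h; nlinarith
  nlinarith

theorem N_big (β : ℕ) (h : β < 40) : 900000 * P.N (β + 1) ≤ P.N β := by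
  have h1 := P.hN β h
  have h3 := P.geo.hθ'
  have h4 := P.N_ge β (by omega)
  nlinarith

end Par

theorem sc_le (j : JJ) : sc j ≤ 40 := by
  rcases j with k | j
  · exact k.1.2.le
  · exact le_rfl

namespace OK
variable {P : Par} {p p' : Pt} {f f' : JJ → ℝ}

theorem pen_ge (h : OK P p f) (β : Fin 40) (e : Bool) :
    sg e * P.N β * (ms p β - 1) ≤ P.hh p + 1 := by
  have h1 := abs_le.1 (h.ap (Sum.inl (β, e)))
  have h2 := h.fe (Sum.inl (β, e))
  simp only [Par.ell, Par.lin, Par.cst] at h1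
  linarith

theorem pen_abs (h : OK P p f) (β : ℕ) (hβ : β < 40) : P.N β * |ms p β - 1| ≤ P.hh p + 1 := by
  have h1 := h.pen_ge ⟨β, hβ⟩ true
  have h2 := h.pen_ge ⟨β, hβ⟩ false
  simp only [sg, if_true, Bool.false_eq_true, if_false] at h1 h2
  rcases abs_cases (ms p β - 1) with ⟨e, -⟩ | ⟨e, -⟩ <;> rw [e] <;> linarith

theorem hh_ge (h : OK P p f) : -1 ≤ P.hh p := by
  have := h.pen_abs 0 (by omega)
  have := mul_nonneg (zero_le_one.trans (P.N_ge 0 (by omega))) (abs_nonneg (ms p 0 - 1))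
  linarith

theorem tot_le (h : OK P p f) : tot p ≤ 42 := by
  have h1 := h.hh_ge
  have h2 := P.S_big
  have h3 := P.N_ge 0 (by omega)
  unfold Par.hh at h1
  by_contra h4
  nlinarith

theorem mass_nn (h : OK P p f) (i : Fin 40) : 0 ≤ mass p i := add_nonneg (h.nn _) (h.nn _)

theorem ms_nn (h : OK P p f) (β : ℕ) : 0 ≤ ms p β := by
  cases β with
  | zero => exact h.nn _
  | succ k => simp only [ms]; split_ifs; exacts [h.mass_nn _, le_rfl]

theorem ms_le (h : OK P p f) (β : ℕ) (hβ : β ≤ 40) : ms p β ≤ 42 := by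
  refine le_trans ?_ h.tot_le
  rw [tot_eq]
  exact Finset.single_le_sum (fun i _ => h.ms_nn i) (Finset.mem_range.2 (by omega))

theorem eta_le (h : OK P p f) (i : Fin 40) : |eta p i| ≤ mass p i := by
  have := h.nn (some (i, true))
  have := h.nn (some (i, false))
  unfold eta mass
  exact abs_le.2 ⟨by linarith, by linarith⟩

theorem W_le (h : OK P p f) (c : CC) : |sv c ⬝ᵥ eta p| ≤ 42 := by
  refine (Finset.abs_sum_le_sum_abs _ _).trans (le_trans ?_ h.tot_le)
  have : ∑ i, |sv c i * eta p i| ≤ ∑ i, mass p i := Finset.sum_le_sum fun i _ => by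
    rw [abs_mul, sv, sg_abs, one_mul]; exact h.eta_le i
  have := h.nn none
  unfold tot
  linarith

theorem ell_le (h : OK P p f) (j : JJ) : |P.ell j p| ≤ 43 * P.N (sc j) := by
  rcases j with k | j
  · have h1 := h.ms_nn k.1
    have h2 := h.ms_le k.1 k.1.2.le
    have h3 := P.N_ge k.1 k.1.2.le
    simp only [Par.ell, Par.lin, Par.cst, sc]
    rw [← mul_sub_one, abs_mul, abs_mul, sg_abs, abs_of_pos (by linarith : 0 < P.N k.1)]
    have : |ms p k.1 - 1| ≤ 43 := abs_le.2 ⟨by linarith, by linarith⟩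
    nlinarith
  · have h1 := P.geo.g5 j (eta p) fun i => (h.eta_le i).trans (by
      rw [← ms_succ]; exact h.ms_le _ (by omega))
    have h2 := h.W_le j.1
    have h3 := P.geo.hM
    simp only [Par.ell, Par.lin, Par.cst, sc, Par.Ψ, P.N40, sub_zero, LinearMap.add_apply]
    refine (abs_add_le _ _).trans ?_
    split_ifs
    · simp only [LinearMap.zero_apply, abs_zero]; linarith
    · change _ + |sv j.1 ⬝ᵥ eta p| ≤ _
      linarith

theorem tight (h : OK P p f) (j : JJ) (hj : f j = 0) : P.hh p ≤ 43 * P.N (sc j) + 1 := by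
  have h1 := abs_le.1 (h.ap j)
  have h2 := abs_le.1 (h.ell_le j)
  linarith

theorem both (h : OK P p f) (β : Fin 40) (e e' : Bool) (he : e ≠ e') :
    |f (Sum.inl (β, e)) + f (Sum.inl (β, e')) - 2 * P.hh p| ≤ 2 := by
  have h1 := abs_le.1 (h.ap (Sum.inl (β, e)))
  have h2 := abs_le.1 (h.ap (Sum.inl (β, e')))
  simp only [Par.ell, Par.lin, Par.cst, sg_ne he] at h1 h2
  exact abs_le.2 ⟨by linarith, by linarith⟩

theorem same (h : OK P p f) (h' : OK P p' f') (j : JJ) (hj : f' j = f j) :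
    P.hh p - P.hh p' ≤ 86 * P.N (sc j) + 2 := by
  have h1 := abs_le.1 (h.ap j)
  have h2 := abs_le.1 (h.ell_le j)
  have h3 := abs_le.1 (h'.ap j)
  have h4 := abs_le.1 (h'.ell_le j)
  linarith

theorem same2 (h : OK P p f) (h' : OK P p' f') (hj : ∀ e, f' (Sum.inl (0, e)) = f (Sum.inl (0, e))) :
    |P.hh p' - P.hh p| ≤ 2 := by
  have h1 := abs_le.1 (h.both 0 true false (by simp))
  have h2 := abs_le.1 (h'.both 0 true false (by simp))
  rw [hj, hj] at h2
  exact abs_le.2 ⟨by linarith, by linarith⟩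

theorem ms_near (h : OK P p f) (t : ℕ) (ht : t ≤ 40) (hH : P.hh p ≤ 43 * P.N t + 1) (β : ℕ)
    (hβ : β < t) : |ms p β - 1| ≤ P.θ := by
  have h1 := h.pen_abs β (by omega)
  have h2 := P.N_lt β t hβ ht
  have h3 := P.N_ge t ht
  have h4 := P.N_ge β (by omega)
  by_contra h5
  nlinarith

theorem Fr_near (h : OK P p f) (t : ℕ) (ht : t ≤ 40) (hH : P.hh p ≤ 43 * P.N t + 1) :
    |Fr p t - (41 - t)| ≤ 41 * P.θ := by
  have h1 : |tot p - 41| ≤ P.θ := by
    have a1 := h.hh_ge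
    have a2 := P.hS
    have a3 := P.N_anti 0 t (by omega) ht
    have a4 := P.N_ge t ht
    have a5 := P.S_big
    unfold Par.hh at a1 hH
    refine abs_le.2 ⟨?_, ?_⟩ <;> by_contra a6 <;> nlinarith
  have h2 : |∑ β ∈ Finset.range t, (ms p β - 1)| ≤ t * P.θ := by
    refine (Finset.abs_sum_le_sum_abs _ _).trans ?_
    refine (Finset.sum_le_sum fun β hβ => h.ms_near t ht hH β (Finset.mem_range.1 hβ)).trans ?_
    simp
  have h3 : tot p = ∑ β ∈ Finset.range t, ms p β + Fr p t := by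
    rw [tot_eq, Fr, Finset.sum_range_add_sum_Ico _ (by omega)]
  rw [Finset.sum_sub_distrib] at h2
  simp only [Finset.sum_const, Finset.card_range, nsmul_eq_mul, mul_one] at h2
  have h4 : (t : ℝ) ≤ 40 := by exact_mod_cast ht
  have h5 := P.geo.hθ
  have h6 := abs_le.1 h1
  have h7 := abs_le.1 h2
  refine abs_le.2 ⟨by nlinarith, by nlinarith⟩

end OK

end Pool.Agent.MP_d68894_co.H53
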