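import Pool.Agent.MP_d68894_co.H53.Model

set_option autoImplicit false
open Matrix

namespace Pool.Agent.MP_d68894_co.H53

structure Pre (P : Par) (t : ℕ) (p : Pt) : Prop where
  a1 : ∀ k k' : KK, t ≤ k.1 + 1 → t ≤ k'.1 + 1 → p (some k) ≠ 0 → p (some k') ≠ 0 → k = k'
  a2 : ms p t = 0 ∨ ∀ k : KK, t ≤ k.1 → p (some k) = 0
  b : ∀ i : Fin 40, i + 1 < t → ∃ a, p (some (i, a)) ≤ 2 * t * P.θ
  hH : P.hh p ≤ 43 * P.N t + 1

theorem mass_single (k : KK) (i : Fin 40) :
    mass (Pi.single (some k) 1) i = if i = k.1 then 1 else 0 := by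
  obtain ⟨j, a⟩ := k
  by_cases h : i = j <;> cases a <;> simp [mass, h]

theorem mass_sub (p q : Pt) (i : Fin 40) : mass (p - q) i = mass p i - mass q i := by
  simp only [mass, Pi.sub_apply]; ring

theorem tot_exch (k k' : KK) : tot (Pi.single (some k) 1 - Pi.single (some k') 1) = 0 := by
  simp [tot, mass_sub, mass_single]

theorem ms_exch (k k' : KK) (t : ℕ) (h : k.1 = k'.1 ∨ (t ≤ k.1 ∧ t ≤ k'.1)) (β : ℕ) (hβ : β ≤ t) :
    ms (Pi.single (some k) 1 - Pi.single (some k') 1) β = 0 := by
  cases β with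
  | zero => simp [ms]
  | succ m =>
    simp only [ms]
    split_ifs with hm
    · rw [mass_sub, mass_single, mass_single]
      rcases h with h | ⟨h1, h2⟩
      · rw [h, sub_self]
      · rw [if_neg, if_neg, sub_self]
        · intro e; rw [← e] at h2; simp at h2; omega
        · intro e; rw [← e] at h1; simp at h1; omega
    · rfl

variable {P : Par} {p p' : Pt} {f f' : JJ → ℝ}

theorem Pre.ms_cases {t : ℕ} (ht : t < 40) (h : OK P p f) (hp : Pre P t p) :
    ms p t = 0 ∨ 19 / 10 ≤ ms p t := by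
  rcases hp.a2 with h1 | h1
  · exact Or.inl h1
  · right
    have h2 := abs_le.1 (h.Fr_near t ht.le hp.hH)
    rw [Fr_succ p t ht.le, Fr_zero p t h1] at h2
    have h3 : (t : ℝ) + 1 ≤ 40 := by exact_mod_cast ht
    have h4 := P.geo.hθ'
    linarith

theorem Pre.hh_big {t : ℕ} (ht : t < 40) (h : OK P p f) (hp : Pre P t p) :
    9 / 10 * P.N t - 1 ≤ P.hh p := by
  have h1 := h.pen_abs t ht
  have h2 : 9 / 10 ≤ |ms p t - 1| := by
    rcases hp.ms_cases ht h with h2 | h2
    · rw [h2]; norm_num
    · exact le_trans (by linarith) (le_abs_self _)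
  have h3 := P.N_ge t ht.le
  nlinarith

theorem pre_zero (h : OK P 0 f) (h' : OK P p' f') (hm : Mn P 0 f p' f')
    (hH : P.hh p' ≤ 43 * P.N 0 + 1) : Pre P 0 p' := by
  have hZ : ∀ j, f' j ≠ f j := by
    intro j hj
    have h1 := h.same h' j hj
    have h2 := P.N_anti 0 (sc j) (by omega) (sc_le j)
    have h3 := P.S_big
    have h4 := P.N_ge 0 (by omega)
    have h5 : P.hh 0 = P.S * 41 := by simp [Par.hh, tot, mass]
    linarith
  have key : ∀ k : KK, p' (some k) ≠ 0 → ∀ o, o ≠ some k → p' o = 0 := by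
    intro k hk o ho
    refine (hm (Pi.single (some k) 1) (by simp) (by simp) ?_ (fun j hj => absurd hj (hZ j))).1 o
      (by simp [ho])
    intro k' hk'
    have : k' ≠ k := fun e => hk (e ▸ hk')
    simp [this]
  refine ⟨fun k k' _ _ h1 h2 => ?_, ?_, fun i hi => by omega, hH⟩
  · by_contra e
    exact h2 (key k h1 _ fun e' => e (Option.some.inj e').symm)
  · by_cases hk : ∃ k : KK, p' (some k) ≠ 0
    · obtain ⟨k, hk⟩ := hk
      exact Or.inl (key k hk none (by simp))
    · push Not at hk
      exact Or.inr fun k _ => hk k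

theorem pre_step {t : ℕ} (ht : t < 40) (h : OK P p f) (h' : OK P p' f') (hp : Pre P t p)
    (hm : Mn P p f p' f') (hH : P.hh p' ≤ 43 * P.N (t + 1) + 1) : Pre P (t + 1) p' := by
  have n1 := P.N_big t ht
  have n2 := P.N_ge (t + 1) ht
  have n3 := hp.hh_big ht h
  have θ0 := P.geo.hθ
  have θ1 := P.geo.hθ'
  have hZ : ∀ j, f' j = f j → sc j ≤ t := by
    intro j hj
    by_contra hc
    have h1 := h.same h' j hj
    have h2 := P.N_anti (t + 1) (sc j) (by omega) (sc_le j)
    linarith
  have exch : ∀ k k' : KK, k ≠ k' → p' (some k) ≠ p (some k) → p' (some k') ≠ p (some k') →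
      (k.1 = k'.1 ∨ (t ≤ k.1 ∧ t ≤ k'.1)) → False := by
    intro k k' hk h1 h2 h3
    have hL : ∀ j, sc j ≤ t → P.Lf j (Pi.single (some k) 1 - Pi.single (some k') 1) = 0 := by
      rintro (j | j) hj
      · simp only [Par.Lf, Par.lin, tot_exch, ms_exch k k' t h3 j.1 hj, mul_zero, add_zero]
      · simp only [sc] at hj; omega
    have h4 := (hm (Pi.single (some k) 1 - Pi.single (some k') 1)
      (fun e => by simpa [hk] using congrFun e (some k)) (by simp) (by
        intro k'' hk''
        have a : k'' ≠ k := fun e => h1 (e ▸ hk'')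
        have b : k'' ≠ k' := fun e => h2 (e ▸ hk'')
        simp [a, b]) (fun j hj => hL j (hZ j hj))).2
    have h5 := abs_le.1 (h.same2 h' fun e => h4 _ (hL _ (Nat.zero_le t)))
    linarith
  have f1 := abs_le.1 (h.Fr_near t ht.le hp.hH)
  have f2 := abs_le.1 (h'.Fr_near (t + 1) ht hH)
  push_cast at f2
  have K1 : ∀ k : KK, t ≤ k.1 → p' (some k) = p (some k) → p' (some k) = 0 := by
    intro k hk e
    by_contra hne
    have hne' : p (some k) ≠ 0 := e ▸ hne
    have h1 : ms p t = 0 := hp.a2.resolve_right fun h => hne' (h k hk)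
    have h2 := Fr_le p p' t fun k' hk' => by
      by_cases h0 : p (some k') = 0
      · rw [h0]; exact h'.nn _
      · rw [hp.a1 k' k (by omega) (by omega) h0 hne', e]
    rw [Fr_succ p t ht.le] at f1
    linarith
  have A1 : ∀ k k' : KK, t + 1 ≤ k.1 + 1 → t + 1 ≤ k'.1 + 1 → p' (some k) ≠ 0 →
      p' (some k') ≠ 0 → k = k' := by
    intro k k' a b c d
    by_contra e
    exact exch k k' e (fun x => c (K1 k (by omega) x)) (fun x => d (K1 k' (by omega) x))
      (Or.inr ⟨by omega, by omega⟩)
  refine ⟨A1, ?_, fun i hi => ?_, hH⟩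
  · by_cases hk : ∃ k : KK, t + 1 ≤ k.1 ∧ p' (some k) ≠ 0
    · obtain ⟨k, hk1, hk2⟩ := hk
      left
      have : ∀ a, p' (some (⟨t, ht⟩, a)) = 0 := by
        intro a
        by_contra e
        have := A1 (⟨t, ht⟩, a) k (by simp) (by omega) e hk2
        rw [← this] at hk1
        simp at hk1
      simp [ms, ht, mass, this]
    · push Not at hk
      exact Or.inr hk
  · have m1 := abs_le.1 (h'.ms_near (t + 1) ht hH (i + 1) hi)
    rw [ms_succ] at m1
    have one : ∀ a, p' (some (i, a)) ≠ p (some (i, a)) → p' (some (i, !a)) = p (some (i, !a)) := by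
      intro a ha
      by_contra hb
      exact exch (i, a) (i, !a) (by simp) ha hb (Or.inl rfl)
    have t0 : (0:ℝ) ≤ t := Nat.cast_nonneg t
    push_cast
    by_cases hit : (i : ℕ) + 1 < t
    · obtain ⟨a, ha⟩ := hp.b i hit
      have m2 := abs_le.1 (h.ms_near t ht.le hp.hH (i + 1) hit)
      rw [ms_succ] at m2
      refine ⟨a, ?_⟩
      by_cases e : p' (some (i, a)) = p (some (i, a))
      · rw [e]; nlinarith
      · have := one a e
        rw [mass_eq _ i a] at m1 m2
        nlinarith
    · have hit' : (i : ℕ) + 1 = t := by omega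
      obtain ⟨a, ha⟩ : ∃ a, p (some (i, a)) = 0 := by
        by_contra hc
        push Not at hc
        have := hp.a1 (i, true) (i, false) (by simp; omega) (by simp; omega) (hc _) (hc _)
        simp at this
      by_cases e : p' (some (i, a)) = p (some (i, a))
      · exact ⟨a, by rw [e, ha]; positivity⟩
      · have h1 := one a e
        have h2 := hp.ms_cases ht h
        rw [← hit', ms_succ, mass_eq _ i a, ha, zero_add] at h2
        rw [mass_eq _ i a] at m1
        have h3 := h'.nn (some (i, a))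
        refine ⟨!a, ?_⟩
        rcases h2 with h2 | h2
        · rw [h1, h2]; positivity
        · linarith

end Pool.Agent.MP_d68894_co.H53
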