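import Pool.Agent.MP_d68894_co.H53.Base

set_option autoImplicit false
open Matrix

namespace Pool.Agent.MP_d68894_co.H53

structure Walk (P : Par) where
  p : ℕ → Pt
  f : ℕ → JJ → ℝ
  ρ : ℕ → JJ
  p0 : p 0 = 0
  ok : ∀ t ≤ 44, OK P (p t) (f t)
  mn : ∀ t < 44, Mn P (p t) (f t) (p (t + 1)) (f (t + 1))
  inj : ∀ s < 44, ∀ t < 44, ρ s = ρ t → s = t
  ti : ∀ s t, s < t → t ≤ 44 → f t (ρ s) = 0

namespace Walk
variable {P : Par} (W : Walk P)

theorem cls (t : ℕ) (ht : t < 44) (m : ℕ) (hm : m ≤ t) (hm' : m ≤ 40)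
    (hR : ∀ s < m, sc (W.ρ s) = s) : P.hh (W.p (t + 1)) ≤ 1 ∨ m ≤ sc (W.ρ t) := by
  by_cases hc : m ≤ sc (W.ρ t)
  · exact Or.inr hc
  left
  rcases h1 : W.ρ t with ⟨β, e⟩ | j
  · rw [h1] at hc
    simp only [sc] at hc
    have h2 := hR β (by omega)
    rcases h3 : W.ρ β with ⟨β', e'⟩ | j
    · rw [h3] at h2
      simp only [sc] at h2
      obtain rfl : β' = β := Fin.ext h2
      have h4 : e ≠ e' := by
        intro h
        have := W.inj β' (by omega) t ht (by rw [h1, h3, h])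
        omega
      have h5 := abs_le.1 ((W.ok (t + 1) ht).both β' e e' h4)
      have h6 := W.ti t (t + 1) (by omega) ht
      have h7 := W.ti β' (t + 1) (by omega) ht
      rw [h1] at h6
      rw [h3] at h7
      linarith
    · rw [h3] at h2
      simp only [sc] at h2
      omega
  · rw [h1] at hc
    simp only [sc] at hc
    omega

theorem hH (t : ℕ) (ht : t < 44) (m : ℕ) (hm : m ≤ t) (hm' : m ≤ 40)
    (hR : ∀ s < m, sc (W.ρ s) = s) : P.hh (W.p (t + 1)) ≤ 43 * P.N m + 1 := by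
  have h0 := P.N_ge m hm'
  rcases W.cls t ht m hm hm' hR with h | h
  · linarith
  · have h1 := (W.ok (t + 1) ht).tight _ (W.ti t (t + 1) (by omega) ht)
    have h2 := P.N_anti m _ h (sc_le _)
    linarith

theorem pre (t : ℕ) (ht : t ≤ 40) : Pre P t (W.p (t + 1)) ∧ ∀ s < t, sc (W.ρ s) = s := by
  induction t with
  | zero =>
    refine ⟨?_, fun s hs => by omega⟩
    have h1 := W.ok 0 (by omega)
    have h2 := W.mn 0 (by omega)
    rw [W.p0] at h1 h2
    exact pre_zero h1 (W.ok 1 (by omega)) h2 (W.hH 0 (by omega) 0 le_rfl (by omega)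
      fun s hs => by omega)
  | succ t ih =>
    obtain ⟨h1, h2⟩ := ih (by omega)
    have h3 := h1.hh_big ht (W.ok (t + 1) (by omega))
    have n1 := P.N_big t ht
    have n2 := P.N_ge (t + 1) ht
    have h4 : sc (W.ρ t) = t := by
      rcases W.cls t (by omega) t le_rfl (by omega) h2 with h | h
      · linarith
      · by_contra hc
        have a1 := (W.ok (t + 1) (by omega)).tight _ (W.ti t (t + 1) (by omega) (by omega))
        have a2 := P.N_anti (t + 1) (sc (W.ρ t)) (by omega) (sc_le _)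
        linarith
    have h5 : ∀ s < t + 1, sc (W.ρ s) = s := fun s hs => by
      rcases Nat.lt_succ_iff_lt_or_eq.1 hs with h | h
      · exact h2 s h
      · rw [h, h4]
    exact ⟨pre_step ht (W.ok (t + 1) (by omega)) (W.ok (t + 2) (by omega)) h1
      (W.mn (t + 1) (by omega)) (W.hH (t + 1) (by omega) (t + 1) le_rfl ht h5), h5⟩

theorem hB (t : ℕ) (h1 : 40 ≤ t) (h2 : t < 44) : P.hh (W.p (t + 1)) ≤ 43 * P.N 40 + 1 :=
  W.hH t h2 40 h1 le_rfl (W.pre 40 le_rfl).2

theorem gain (c : CC) (t : ℕ) (h1 : 40 ≤ t) (h2 : t < 44) :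
    OutG P c 1 2 (W.p (t + 1)) ∨ ∃ k, W.ρ t = Sum.inr (c, k) := by
  rcases W.cls t h2 40 h1 le_rfl (W.pre 40 le_rfl).2 with h | h
  · exact Or.inl ((W.ok (t + 1) h2).outG1 c h)
  · rcases h3 : W.ρ t with k | j
    · rw [h3] at h
      simp only [sc] at h
      omega
    · by_cases hc : j.1 = c
      · exact Or.inr ⟨j.2, by rw [← hc]⟩
      · exact Or.inl ((W.ok (t + 1) h2).outG2 c j hc (h3 ▸ W.ti t (t + 1) (by omega) h2))

theorem vertex : ∃ c : CC, ∀ i, |eta (W.p 41) i - sg (c i)| ≤ 201 * P.θ := by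
  obtain ⟨h1, -⟩ := W.pre 40 le_rfl
  have θ0 := P.geo.hθ
  have : ∀ i : Fin 40, ∃ a, W.p 41 (some (i, !a)) ≤ 80 * P.θ := by
    intro i
    by_cases hi : (i : ℕ) + 1 < 40
    · obtain ⟨a, ha⟩ := h1.b i hi
      exact ⟨!a, by rw [Bool.not_not]; push_cast at ha; linarith⟩
    · by_contra hc
      push Not at hc
      have := h1.a1 (i, true) (i, false) (by simp; omega) (by simp; omega)
        (by have := hc false; simp at this; linarith) (by have := hc true; simp at this; linarith)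
      simp at this
  choose c hc using this
  refine ⟨c, fun i => ?_⟩
  have m := abs_le.1 (mass_near (W.ok 41 (by omega)) h1.hH i)
  rw [mass_eq _ i (c i)] at m
  rw [eta_eq _ i (c i), ← mul_sub_one, abs_mul, sg_abs, one_mul]
  have := hc i
  have := (W.ok 41 (by omega)).nn (some (i, !c i))
  exact abs_le.2 ⟨by linarith, by linarith⟩

theorem last2 (c : CC) (κ κ' : Fin 3) (hκ : (κ = 1 ∧ κ' = 2) ∨ (κ = 2 ∧ κ' = 1))
    (r0 : W.ρ 40 = Sum.inr (c, 0)) (r1 : W.ρ 41 = Sum.inr (c, κ))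
    (w1 : 33 ≤ sv c ⬝ᵥ eta (W.p 42))
    (hV : 300 * P.Q ≤ P.U c (c, κ') (W.p 42)) : False := by
  have hG : ∀ p, OutG P c 1 2 p → OutG P c κ κ' p := fun p h => by
    rcases hκ with ⟨rfl, rfl⟩ | ⟨rfl, rfl⟩
    exacts [h, h.swap]
  have hZ : ∀ p p', OutZ P c 1 2 p p' → OutZ P c κ κ' p p' := fun p p' h => by
    rcases hκ with ⟨rfl, rfl⟩ | ⟨rfl, rfl⟩
    exacts [h, h.swap]
  have hk : ∀ k : Fin 3, k = 0 ∨ k = κ ∨ k = κ' := fun k => by
    rcases hκ with ⟨rfl, rfl⟩ | ⟨rfl, rfl⟩ <;> revert k <;> decide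
  have k0 : κ ≠ 0 := by rcases hκ with ⟨rfl, rfl⟩ | ⟨rfl, rfl⟩ <;> decide
  have k0' : κ' ≠ 0 := by rcases hκ with ⟨rfl, rfl⟩ | ⟨rfl, rfl⟩ <;> decide
  have hQ := P.geo.hQ
  have o2 := W.ok 42 (by omega)
  have o3 := W.ok 43 (by omega)
  have o4 := W.ok 44 (by omega)
  have s2 : W.f 42 (Sum.inr (c, 0)) = 0 := r0 ▸ W.ti 40 42 (by omega) (by omega)
  have s3 : W.f 43 (Sum.inr (c, 0)) = 0 := r0 ▸ W.ti 40 43 (by omega) (by omega)
  have s4 : W.f 44 (Sum.inr (c, 0)) = 0 := r0 ▸ W.ti 40 44 (by omega) (by omega)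
  have l2 : W.f 42 (Sum.inr (c, κ)) = 0 := r1 ▸ W.ti 41 42 (by omega) (by omega)
  have l3 : W.f 43 (Sum.inr (c, κ)) = 0 := r1 ▸ W.ti 41 43 (by omega) (by omega)
  have l4 : W.f 44 (Sum.inr (c, κ)) = 0 := r1 ▸ W.ti 41 44 (by omega) (by omega)
  have a2 := abs_le.1 (o2.dk c κ k0)
  have a3 := abs_le.1 (o3.dk c κ k0)
  have a4 := abs_le.1 (o4.dk c κ k0)
  have b2 := abs_le.1 (o2.dk c κ' k0')
  have b3 := abs_le.1 (o3.dk c κ' k0')
  have b4 := abs_le.1 (o4.dk c κ' k0')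
  have c2 := abs_le.1 (o2.W_le c)
  have c3 := abs_le.1 (o3.W_le c)
  have c4 := abs_le.1 (o4.W_le c)
  have e3 := o3.fe (Sum.inr (c, κ'))
  have e4 := o4.fe (Sum.inr (c, κ'))
  rw [s2, l2] at a2
  rw [s3, l3] at a3
  rw [s4, l4] at a4
  rw [s2] at b2
  rw [s3] at b3
  rw [s4] at b4
  have g2 : OutG P c κ κ' (W.p 43) ∨ W.ρ 42 = Sum.inr (c, κ') := by
    rcases W.gain c 42 (by omega) (by omega) with h | ⟨k, h⟩
    · exact Or.inl (hG _ h)
    · rcases hk k with rfl | rfl | rfl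
      · exact absurd (W.inj 40 (by omega) 42 (by omega) (r0.trans h.symm)) (by omega)
      · exact absurd (W.inj 41 (by omega) 42 (by omega) (r1.trans h.symm)) (by omega)
      · exact Or.inr h
  have v3 : P.U c (c, κ') (W.p 43) ≤ 44 * P.Q := by
    rcases g2 with ⟨a, b, h1, h2, h3, h4, h5⟩ | h
    · by_contra hc
      nlinarith
    · have := o3.U_le c _ (h ▸ W.ti 42 43 (by omega) (by omega))
      linarith
  have w2 := W_drop o2 o3 (W.hB 41 (by omega) (by omega)) (W.hB 42 (by omega) (by omega))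
    (W.mn 42 (by omega)) {(c, 0), (c, κ)} (by
      rintro ⟨c', k⟩ hj
      by_cases hc : c' = c
      · subst hc
        rcases hk k with rfl | rfl | rfl
        · simp
        · simp
        · have := abs_le.1 (o2.dZ o3 c' _ (s3.trans s2.symm) hj)
          linarith
      · obtain ⟨a, b, h1, h2, h3, h4, h5⟩ := hZ _ _ (o2.outZ2 o3 c _ hc (s3.trans s2.symm) hj)
        nlinarith) 2 Finset.card_le_two c
  push_cast at w2
  have r2 : W.ρ 42 = Sum.inr (c, κ') := by
    rcases g2 with ⟨a, b, h1, h2, h3, h4, h5⟩ | h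
    · nlinarith
    · exact h
  have m3 : W.f 43 (Sum.inr (c, κ')) = 0 := r2 ▸ W.ti 42 43 (by omega) (by omega)
  have m4 : W.f 44 (Sum.inr (c, κ')) = 0 := r2 ▸ W.ti 42 44 (by omega) (by omega)
  rw [m3] at b3
  rw [m4] at b4
  have w3 : sv c ⬝ᵥ eta (W.p 44) ≤ 7 := by
    rcases W.gain c 43 (by omega) (by omega) with h | ⟨k, h⟩
    · obtain ⟨a, b, h1, h2, h3, h4, h5⟩ := hG _ h
      by_contra hc
      nlinarith
    · rcases hk k with rfl | rfl | rfl
      · exact absurd (W.inj 40 (by omega) 43 (by omega) (r0.trans h.symm)) (by omega)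
      · exact absurd (W.inj 41 (by omega) 43 (by omega) (r1.trans h.symm)) (by omega)
      · exact absurd (W.inj 42 (by omega) 43 (by omega) (r2.trans h.symm)) (by omega)
  have w4 := W_drop o3 o4 (W.hB 42 (by omega) (by omega)) (W.hB 43 (by omega) (by omega))
    (W.mn 43 (by omega)) {(c, 0), (c, κ), (c, κ')} (by
      rintro ⟨c', k⟩ hj
      by_cases hc : c' = c
      · subst hc
        rcases hk k with rfl | rfl | rfl <;> simp
      · obtain ⟨a, b, h1, h2, h3, h4, h5⟩ := hZ _ _ (o3.outZ2 o4 c _ hc (s4.trans s3.symm) hj)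
        nlinarith) 3 Finset.card_le_three c
  push_cast at w4
  linarith

include W in
theorem absurd_walk : False := by
  classical
  obtain ⟨c, hc⟩ := W.vertex
  have θ0 := P.geo.hθ
  have θ1 := P.geo.hθ'
  have hQ := P.geo.hQ
  have o1 := W.ok 41 (by omega)
  have o2 := W.ok 42 (by omega)
  have hk : ∀ k : Fin 3, k = 0 ∨ k = 1 ∨ k = 2 := by decide
  obtain ⟨u0, v0⟩ : 1000 * P.Q ≤ P.U c (c, 1) (W.p 41) ∧ 1000 * P.Q ≤ P.U c (c, 2) (W.p 41) :=
    P.geo.g3 c _ fun i => (hc i).trans (by linarith)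
  have r0 : W.ρ 40 = Sum.inr (c, 0) := by
    rcases W.gain c 40 (by omega) (by omega) with ⟨a, b, h1, h2, h3, h4, h5⟩ | ⟨k, h⟩
    · nlinarith
    · have := o1.U_le c _ (h ▸ W.ti 40 41 (by omega) (by omega))
      rcases hk k with rfl | rfl | rfl
      · exact h
      · linarith
      · linarith
  have w0 : 79 / 2 ≤ sv c ⬝ᵥ eta (W.p 41) := by
    have : ∀ i ∈ Finset.univ, 1 - 201 * P.θ ≤ sv c i * eta (W.p 41) i := by
      intro i _
      have h1 : |sg (c i) * (eta (W.p 41) i - sg (c i))| ≤ 201 * P.θ := by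
        rw [abs_mul, sg_abs, one_mul]; exact hc i
      have h2 := abs_le.1 h1
      have h3 := sg_sq (c i)
      unfold sv
      linarith
    have h := Finset.sum_le_sum this
    simp only [Finset.sum_const, Finset.card_univ, Fintype.card_fin, nsmul_eq_mul] at h
    push_cast at h
    unfold dotProduct
    linarith
  have s1 : W.f 41 (Sum.inr (c, 0)) = 0 := r0 ▸ W.ti 40 41 (by omega) (by omega)
  have s2 : W.f 42 (Sum.inr (c, 0)) = 0 := r0 ▸ W.ti 40 42 (by omega) (by omega)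
  have g1 : OutG P c 1 2 (W.p 42) ∨ W.ρ 41 = Sum.inr (c, 1) ∨ W.ρ 41 = Sum.inr (c, 2) := by
    rcases W.gain c 41 (by omega) (by omega) with h | ⟨k, h⟩
    · exact Or.inl h
    · rcases hk k with rfl | rfl | rfl
      · exact absurd (W.inj 40 (by omega) 41 (by omega) (r0.trans h.symm)) (by omega)
      · exact Or.inr (Or.inl h)
      · exact Or.inr (Or.inr h)
  have t1 : W.ρ 41 = Sum.inr (c, 1) → P.U c (c, 1) (W.p 42) ≤ 44 := fun h =>
    o2.U_le c _ (h ▸ W.ti 41 42 (by omega) (by omega))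
  have t2 : W.ρ 41 = Sum.inr (c, 2) → P.U c (c, 2) (W.p 42) ≤ 44 := fun h =>
    o2.U_le c _ (h ▸ W.ti 41 42 (by omega) (by omega))
  have mn : P.U c (c, 1) (W.p 42) ≤ 44 ∨ P.U c (c, 2) (W.p 42) ≤ 44 := by
    rcases g1 with ⟨a, b, h1, h2, h3, h4, h5⟩ | h | h
    · by_contra hc
      push Not at hc
      nlinarith
    · exact Or.inl (t1 h)
    · exact Or.inr (t2 h)
  obtain ⟨j1, hj1⟩ : ∃ j1 : JB, ∀ j, W.f 42 (Sum.inr j) = W.f 41 (Sum.inr j) →
      j ∈ ({(c, 0), j1} : Finset JB) := by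
    by_cases h : ∃ j1, j1 ≠ (c, 0) ∧ W.f 42 (Sum.inr j1) = W.f 41 (Sum.inr j1)
    · obtain ⟨j1, h1, h2⟩ := h
      refine ⟨j1, fun j hj => ?_⟩
      by_contra hn
      simp only [Finset.mem_insert, Finset.mem_singleton, not_or] at hn
      have a1 := o1.dZ o2 c j (s2.trans s1.symm) hj
      have a2 := o1.dZ o2 c j1 (s2.trans s1.symm) h2
      have e : ∀ j, P.Φ (c, 0) (eta (W.p 42) - eta (W.p 41)) - P.Φ j (eta (W.p 42) - eta (W.p 41))
          = P.U c j (W.p 42) - P.U c j (W.p 41) := fun j => by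
        simp only [Par.U, map_sub]; ring
      have a3 := P.geo.g2 c j j1 hn.1 h1 hn.2 (eta (W.p 42) - eta (W.p 41))
      simp only [e] at a3
      obtain ⟨a4, a5⟩ := a3 a1 a2
      have := abs_le.1 a4
      have := abs_le.1 a5
      rcases mn with h | h <;> linarith
    · push Not at h
      refine ⟨(c, 0), fun j hj => ?_⟩
      by_contra hn
      simp only [Finset.mem_insert, Finset.mem_singleton, or_self] at hn
      exact h j hn hj
  have H1 := W.hB 40 (by omega) (by omega)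
  have H2 := W.hB 41 (by omega) (by omega)
  have w1 := W_drop o1 o2 H1 H2 (W.mn 41 (by omega)) _ hj1 2 Finset.card_le_two c
  push_cast at w1
  have a2 := abs_le.1 (o2.dk c 1 (by decide))
  have b2 := abs_le.1 (o2.dk c 2 (by decide))
  have e1 := o2.fe (Sum.inr (c, 1))
  have e2 := o2.fe (Sum.inr (c, 2))
  rw [s2] at a2 b2
  have mx : 300 * P.Q ≤ P.U c (c, 1) (W.p 42) ∨ 300 * P.Q ≤ P.U c (c, 2) (W.p 42) := by
    by_contra hn
    push Not at hn
    have nZ : ¬ OutZ P c 1 2 (W.p 41) (W.p 42) := by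
      rintro ⟨a, b, h1, h2, h3, h4, h5⟩
      nlinarith
    have hZ : ∀ j, W.f 42 (Sum.inr j) = W.f 41 (Sum.inr j) → j ∈ ({(c, 0)} : Finset JB) := by
      rintro ⟨c', k⟩ hj
      by_cases hc : c' = c
      · subst hc
        have := abs_le.1 (o1.dZ o2 c' _ (s2.trans s1.symm) hj)
        rcases hk k with rfl | rfl | rfl
        · simp
        · linarith
        · linarith
      · exact absurd (o1.outZ2 o2 c _ hc (s2.trans s1.symm) hj) nZ
    have hD : (DD (W.p 41) (W.p 42)).card ≤ 1 := by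
      by_contra hn'
      exact nZ (o1.outZ1 o2 c (s2.trans s1.symm)
        (use_kern (W.mn 41 (by omega)) _ hZ _ subset_rfl (by simpa using hn')).2)
    obtain ⟨i0, hi0⟩ := Finset.card_le_one_iff_subset_singleton.1 hD
    have := P.geo.g4 c (eta (W.p 42)) i0 fun i hi => by
      have h1 := eta_off o1 o2 H1 H2 i fun h => hi (Finset.mem_singleton.1 (hi0 h))
      have h2 := abs_sub_le (eta (W.p 42) i) (eta (W.p 41) i) (sg (c i))
      linarith [hc i]
    change _ ≤ |P.U c (c, 1) (W.p 42)| + |P.U c (c, 2) (W.p 42)| at this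
    rw [abs_of_nonneg (by linarith), abs_of_nonneg (by linarith)] at this
    linarith
  rcases g1 with ⟨a, b, h1, h2, h3, h4, h5⟩ | h | h
  · nlinarith
  · exact W.last2 c 1 2 (Or.inl ⟨rfl, rfl⟩) r0 h (by linarith)
      (mx.resolve_left (by linarith [t1 h]))
  · exact W.last2 c 2 1 (Or.inr ⟨rfl, rfl⟩) r0 h (by linarith)
      (mx.resolve_right (by linarith [t2 h]))

end Walk

end Pool.Agent.MP_d68894_co.H53
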